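import Pool.Agent.H61.UN.Def
import Pool.Agent.H75.AP.MertensB

/-!
# [H61 UN MT] Mertens products

`PI u v` = primes in `(u, v]` (`Pool.Agent.H75.AP.PI`, `mem_PI` in namespace `Pool.Agent.H75.AP.MertB`).

PROOFS.
* `prod_ub`: each `p ∈ PI w0 z` is `> w0 ≥ J`, so `0 ≤ 1 - J/p ≤ exp(-J/p)` (`Real.one_sub_le_exp_neg` or `Real.add_one_le_exp`), the product is
  `≤ exp(-J ∑_{p ∈ PI w0 z} 1/p)` and `∑_{PI w0 z} 1/p ≥ ∑_{PI 0 z} 1/p - w0 ≥ log log z - C1 - w0` (`mertens_low`; the primes `≤ w0`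
  contribute at most `w0`, each term is `≤ 1`, at most `w0` of them: `PI 0 z ⊆ PI w0 z ∪ Icc 1 w0`). So `C = exp(J (C1 + w0))`,
  `exp(-J log log z) = (log z)^(-J)` (`log z > 0` as `z ≥ 3`).
* `prod_lb`: `p > K`, `t = K/p < 1`. For `p ≥ 2K`: `t ≤ 1/2`, `1 - t ≥ exp(-t - t²)` (because `log(1-t) ≥ -t - t²` on `[0,1/2]`: e.g.
  `Real.one_sub_inv_le_log_of_pos` gives `log(1-t) ≥ 1 - 1/(1-t) = -t/(1-t) ≥ -t(1+2t)`: use `exp(-t - 2 t²)` instead, that is enough).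
  For `K < p < 2K`: `1 - K/p ≥ 1/(2K)` (`p - K ≥ 1`, `p ≤ 2K`) and there are at most `2K` such `p`. So the product is
  `≥ (1/(2K))^(2K) exp(-K ∑_{PI 0 z} 1/p - 2K² ∑ 1/p²)`, with `∑ 1/p² ≤ 2` and `mertens_upper`: `∑_{PI 0 z} 1/p ≤ log log z + C2`.
  For `K = 0` the product is `1` and `c = 1` works.
-/

namespace Pool.Agent.H61.UN

open Finset Pool.Agent.H75.AP

theorem prod_ub (J w0 : ℕ) (hw : J ≤ w0) : ∃ C : ℝ, 0 < C ∧ ∀ z : ℝ, 3 ≤ z →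
    ∏ p ∈ PI (w0 : ℝ) z, (1 - (J : ℝ) / p) ≤ C / Real.log z ^ J := by
  obtain ⟨C1, hC1, hm⟩ := mertens_low
  refine ⟨Real.exp (J * (C1 + w0)), Real.exp_pos _, ?_⟩
  intro z hz
  have hlz : 0 < Real.log z := Real.log_pos (by linarith)
  have hw0 : (0 : ℝ) ≤ w0 := Nat.cast_nonneg _
  have h1 : ∏ p ∈ PI (w0 : ℝ) z, (1 - (J : ℝ) / p) ≤
      ∏ p ∈ PI (w0 : ℝ) z, Real.exp (-((J : ℝ) * (1 / (p : ℝ)))) := by
    apply prod_le_prod
    · intro p hp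
      obtain ⟨hp1, hp2, -⟩ := (MertB.mem_PI hw0).1 hp
      have hp0 : (0 : ℝ) < p := by exact_mod_cast hp1.pos
      rw [sub_nonneg, div_le_one hp0]
      exact (Nat.cast_le.2 hw).trans hp2.le
    · intro p _
      have h2 := Real.add_one_le_exp (-((J : ℝ) * (1 / (p : ℝ))))
      have h3 : (1 : ℝ) - (J : ℝ) / p = -((J : ℝ) * (1 / (p : ℝ))) + 1 := by ring
      rw [h3]
      exact h2
  have h2 : ∑ p ∈ PI 0 z, 1 / (p : ℝ) ≤ ∑ p ∈ PI (w0 : ℝ) z, 1 / (p : ℝ) + w0 := by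
    have h3 : PI 0 z ⊆ PI (w0 : ℝ) z ∪ Icc 1 w0 := by
      intro p hp
      obtain ⟨hp1, hp2, hp3⟩ := (MertB.mem_PI le_rfl).1 hp
      rw [mem_union, MertB.mem_PI hw0, mem_Icc]
      rcases lt_or_ge w0 p with h4 | h4
      · exact Or.inl ⟨hp1, by exact_mod_cast h4, hp3⟩
      · exact Or.inr ⟨hp1.one_lt.le, h4⟩
    have h4 : ∑ p ∈ PI 0 z, 1 / (p : ℝ) ≤ ∑ p ∈ PI (w0 : ℝ) z ∪ Icc 1 w0, 1 / (p : ℝ) :=
      sum_le_sum_of_subset_of_nonneg h3 fun _ _ _ => by positivity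
    have h5 : ∑ p ∈ PI (w0 : ℝ) z ∪ Icc 1 w0, 1 / (p : ℝ) ≤
        ∑ p ∈ PI (w0 : ℝ) z, 1 / (p : ℝ) + ∑ p ∈ Icc 1 w0, 1 / (p : ℝ) := by
      rw [← sum_union_inter]
      have : 0 ≤ ∑ p ∈ PI (w0 : ℝ) z ∩ Icc 1 w0, 1 / (p : ℝ) :=
        sum_nonneg fun _ _ => by positivity
      linarith
    have h6 : ∑ p ∈ Icc 1 w0, 1 / (p : ℝ) ≤ w0 := by
      have h7 : ∑ p ∈ Icc 1 w0, 1 / (p : ℝ) ≤ ∑ _p ∈ Icc 1 w0, (1 : ℝ) := by
        apply sum_le_sum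
        intro p hp
        rw [mem_Icc] at hp
        have hp1 : (1 : ℝ) ≤ p := by exact_mod_cast hp.1
        rw [div_le_one (by linarith)]
        exact hp1
      rw [sum_const, Nat.card_Icc, nsmul_eq_mul, mul_one, Nat.add_sub_cancel] at h7
      exact h7
    linarith
  have h3 := hm z hz
  refine h1.trans ?_
  rw [← Real.exp_sum, sum_neg_distrib, ← mul_sum]
  have h4 : -((J : ℝ) * ∑ p ∈ PI (w0 : ℝ) z, 1 / (p : ℝ)) ≤
      J * (C1 + w0) - J * Real.log (Real.log z) := by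
    have h5 : (J : ℝ) * (Real.log (Real.log z) - C1 - w0) ≤
        J * ∑ p ∈ PI (w0 : ℝ) z, 1 / (p : ℝ) :=
      mul_le_mul_of_nonneg_left (by linarith) (Nat.cast_nonneg _)
    linarith
  refine (Real.exp_le_exp.2 h4).trans (le_of_eq ?_)
  rw [Real.exp_sub, Real.exp_nat_mul (Real.log (Real.log z)) J, Real.exp_log hlz]

theorem prod_lb (K : ℕ) : ∃ c : ℝ, 0 < c ∧ ∀ z : ℝ, 3 ≤ z →
    c / Real.log z ^ K ≤ ∏ p ∈ PI (K : ℝ) z, (1 - (K : ℝ) / p) := by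
  rcases Nat.eq_zero_or_pos K with hK0 | hK0
  · subst hK0
    refine ⟨1, one_pos, fun z _ => ?_⟩
    rw [pow_zero, div_one]
    apply le_of_eq
    symm
    apply prod_eq_one
    intro p _
    rw [Nat.cast_zero, zero_div, sub_zero]
  obtain ⟨C2, hC2, hm⟩ := mertens_upper
  have hKr : (1 : ℝ) ≤ K := by exact_mod_cast hK0
  obtain ⟨δ, hδ⟩ : ∃ δ : ℝ, δ = 1 / (2 * (K : ℝ)) := ⟨_, rfl⟩
  have hδ0 : 0 < δ := by rw [hδ]; positivity
  have hδ1 : δ ≤ 1 := by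
    rw [hδ, div_le_one (by positivity)]
    linarith
  refine ⟨δ ^ (2 * K) * Real.exp (-(K * C2) - 4 * (K : ℝ) ^ 2), by positivity, ?_⟩
  intro z hz
  have hlz : 0 < Real.log z := Real.log_pos (by linarith)
  have hK : (0 : ℝ) ≤ K := Nat.cast_nonneg _
  have hpt : ∀ p ∈ PI (K : ℝ) z, (if p < 2 * K then δ else 1) *
      Real.exp (-((K : ℝ) * (1 / (p : ℝ))) - 2 * (K : ℝ) ^ 2 * ((p : ℝ) ^ 2)⁻¹) ≤
      1 - (K : ℝ) / p := by
    intro p hp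
    obtain ⟨hp1, hp2, -⟩ := (MertB.mem_PI hK).1 hp
    have hp0 : (0 : ℝ) < p := by exact_mod_cast hp1.pos
    have hneg : -((K : ℝ) * (1 / (p : ℝ))) - 2 * (K : ℝ) ^ 2 * ((p : ℝ) ^ 2)⁻¹ ≤ 0 := by
      have h1 : 0 ≤ (K : ℝ) * (1 / (p : ℝ)) := by positivity
      have h2 : 0 ≤ 2 * (K : ℝ) ^ 2 * ((p : ℝ) ^ 2)⁻¹ := by positivity
      linarith
    split_ifs with h1
    · have h2 : δ ≤ 1 - (K : ℝ) / p := by
        have h3 : (K : ℝ) + 1 ≤ p := by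
          have : K < p := by exact_mod_cast hp2
          exact_mod_cast this
        have h4 : (p : ℝ) ≤ 2 * K := by exact_mod_cast h1.le
        have h5 : 1 - (K : ℝ) / p = (p - K) / p := by field_simp
        rw [h5, hδ]
        rw [div_le_div_iff₀ (by positivity) hp0]
        nlinarith
      have h3 : Real.exp (-((K : ℝ) * (1 / (p : ℝ))) - 2 * (K : ℝ) ^ 2 * ((p : ℝ) ^ 2)⁻¹) ≤ 1 :=
        Real.exp_le_one_iff.2 hneg
      calc δ * Real.exp (-((K : ℝ) * (1 / (p : ℝ))) - 2 * (K : ℝ) ^ 2 * ((p : ℝ) ^ 2)⁻¹)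
          ≤ δ * 1 := mul_le_mul_of_nonneg_left h3 hδ0.le
        _ ≤ 1 - (K : ℝ) / p := by rw [mul_one]; exact h2
    · rw [one_mul]
      push Not at h1
      obtain ⟨t, ht⟩ : ∃ t : ℝ, t = (K : ℝ) / p := ⟨_, rfl⟩
      have ht0 : 0 ≤ t := by rw [ht]; positivity
      have ht1 : t ≤ 1 / 2 := by
        rw [ht, div_le_div_iff₀ hp0 two_pos]
        have : (2 * K : ℝ) ≤ p := by exact_mod_cast h1
        linarith
      have h2 : -((K : ℝ) * (1 / (p : ℝ))) - 2 * (K : ℝ) ^ 2 * ((p : ℝ) ^ 2)⁻¹ =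
          -t - 2 * t ^ 2 := by
        rw [ht, div_pow]
        ring
      rw [h2, ← ht]
      have h3 : 0 < 1 - t := by linarith
      have h4 := Real.one_sub_inv_le_log_of_pos h3
      have h5 : (1 - t)⁻¹ ≤ 1 + t + 2 * t ^ 2 := by
        rw [inv_le_iff_one_le_mul₀ h3]
        nlinarith [mul_nonneg (sq_nonneg t) (by linarith : (0 : ℝ) ≤ 1 - 2 * t)]
      calc Real.exp (-t - 2 * t ^ 2) ≤ Real.exp (Real.log (1 - t)) :=
            Real.exp_le_exp.2 (by linarith)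
        _ = 1 - t := Real.exp_log h3
  have hprod : ∏ p ∈ PI (K : ℝ) z, ((if p < 2 * K then δ else 1) *
      Real.exp (-((K : ℝ) * (1 / (p : ℝ))) - 2 * (K : ℝ) ^ 2 * ((p : ℝ) ^ 2)⁻¹)) ≤
      ∏ p ∈ PI (K : ℝ) z, (1 - (K : ℝ) / p) := by
    apply prod_le_prod
    · intro p _
      split_ifs <;> positivity
    · exact hpt
  refine le_trans ?_ hprod
  rw [prod_mul_distrib, ← Real.exp_sum, sum_sub_distrib, sum_neg_distrib, ← mul_sum, ← mul_sum]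
  have h1 : δ ^ (2 * K) ≤ ∏ p ∈ PI (K : ℝ) z, (if p < 2 * K then δ else 1) := by
    rw [prod_ite, prod_const, prod_const_one, mul_one]
    apply pow_le_pow_of_le_one hδ0.le hδ1
    have h2 : (PI (K : ℝ) z).filter (fun p => p < 2 * K) ⊆ range (2 * K) := by
      intro p hp
      rw [mem_filter] at hp
      exact mem_range.2 hp.2
    have h3 := card_le_card h2
    rwa [card_range] at h3
  have h2 : ∑ p ∈ PI (K : ℝ) z, 1 / (p : ℝ) ≤ Real.log (Real.log z) + C2 := by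
    refine le_trans ?_ (hm z hz)
    apply sum_le_sum_of_subset_of_nonneg
    · intro p hp
      obtain ⟨hp1, hp2, hp3⟩ := (MertB.mem_PI hK).1 hp
      exact (MertB.mem_PI le_rfl).2 ⟨hp1, by exact_mod_cast hp1.pos, hp3⟩
    · intro p _ _
      positivity
  have h3 : ∑ p ∈ PI (K : ℝ) z, ((p : ℝ) ^ 2)⁻¹ ≤ 2 := by
    have h4 := sum_Ioo_inv_sq_le (α := ℝ) 0 (⌊z⌋₊ + 1)
    have h5 : ∑ p ∈ PI (K : ℝ) z, ((p : ℝ) ^ 2)⁻¹ ≤
        ∑ p ∈ Ioo 0 (⌊z⌋₊ + 1), ((p : ℝ) ^ 2)⁻¹ := by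
      apply sum_le_sum_of_subset_of_nonneg
      · intro p hp
        obtain ⟨hp1, hp2, hp3⟩ := (MertB.mem_PI hK).1 hp
        rw [mem_Ioo]
        exact ⟨hp1.pos, Nat.lt_succ_of_le (Nat.le_floor hp3)⟩
      · intro p _ _
        positivity
    refine h5.trans (h4.trans (le_of_eq ?_))
    norm_num
  have h4 : Real.exp (-(K * C2) - 4 * (K : ℝ) ^ 2) / Real.log z ^ K ≤
      Real.exp (-((K : ℝ) * ∑ p ∈ PI (K : ℝ) z, 1 / (p : ℝ)) -
        2 * (K : ℝ) ^ 2 * ∑ p ∈ PI (K : ℝ) z, ((p : ℝ) ^ 2)⁻¹) := by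
    have h5 : Real.log z ^ K = Real.exp (K * Real.log (Real.log z)) := by
      rw [Real.exp_nat_mul, Real.exp_log hlz]
    rw [h5, ← Real.exp_sub]
    apply Real.exp_le_exp.2
    have h6 := mul_le_mul_of_nonneg_left h2 hK
    have h7 := mul_le_mul_of_nonneg_left h3 (by positivity : (0 : ℝ) ≤ 2 * (K : ℝ) ^ 2)
    linarith
  have h5 : δ ^ (2 * K) * Real.exp (-(K * C2) - 4 * (K : ℝ) ^ 2) / Real.log z ^ K =
      δ ^ (2 * K) * (Real.exp (-(K * C2) - 4 * (K : ℝ) ^ 2) / Real.log z ^ K) := by ring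
  rw [h5]
  exact mul_le_mul h1 h4 (by positivity) ((by positivity : (0 : ℝ) ≤ δ ^ (2 * K)).trans h1)

end Pool.Agent.H61.UN
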