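import Mathlib

/-!
# [H61 UN CS] Cauchy-Schwarz and the final algebra (Mathlib only)

PROOF. `S = ∑_N B N`, `M = ∑_{N ∈ T} B N (Z N)^(K-(k+1))`. Cauchy-Schwarz (`Finset.sum_mul_sq_le_sq_mul_sq` with `√B` and `√B Z^(K-k-1)`, or
`Finset.inner_mul_le_norm_mul_norm`): `M² ≤ S ∑ B Z^(2(K-k-1)) ≤ S ∑ Z^(2K-(k+1))` (`B ≤ Z^(k+1)`, `(k+1) + 2(K-(k+1)) = 2K-(k+1)` as `k+1 ≤ K`).
So `(c1 x ρ^K)² ≤ S C1 x (ρ^K + ρ^(2K-(k+1)))`. If `ρ ≥ 1`: `ρ^K ≤ ρ^(2K-(k+1))` (`K ≤ 2K-(k+1)`), so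
`c1² x ρ^(2K) ≤ 2 C1 S ρ^(2K-(k+1))`, i.e. `S ≥ c1²/(2C1) x ρ^(k+1)` and `min 1 ρ = 1`. If `ρ < 1`: `c1² x ρ^(2K) ≤ 2 C1 S ρ^K`, i.e.
`S ≥ c1²/(2C1) x ρ^K = c1²/(2C1) x ρ^(k+1) ρ^(K-(k+1))`.
-/

namespace Pool.Agent.H61.UN

open Finset

theorem cs_fin (K k : ℕ) (hk : k + 1 ≤ K) (T : Finset ℕ) (B Z : ℕ → ℝ) (hB : ∀ N ∈ T, 0 ≤ B N)
    (hZ : ∀ N ∈ T, 0 ≤ Z N) (hBZ : ∀ N ∈ T, B N ≤ Z N ^ (k + 1)) (x ρ c1 C1 : ℝ) (hx : 0 < x) (hρ : 0 < ρ)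
    (hc1 : 0 < c1) (hC1 : 0 < C1) (hM : c1 * x * ρ ^ K ≤ ∑ N ∈ T, B N * Z N ^ (K - (k + 1)))
    (hZm : ∑ N ∈ T, Z N ^ (2 * K - (k + 1)) ≤ C1 * x * (ρ ^ K + ρ ^ (2 * K - (k + 1)))) :
    c1 ^ 2 / (2 * C1) * x * ρ ^ (k + 1) * (min 1 ρ) ^ (K - (k + 1)) ≤ ∑ N ∈ T, B N := by
  obtain ⟨e, rfl⟩ : ∃ e, K = k + 1 + e := ⟨K - (k + 1), by omega⟩
  have he1 : k + 1 + e - (k + 1) = e := by omega
  have he2 : 2 * (k + 1 + e) - (k + 1) = (k + 1 + e) + e := by omega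
  rw [he1] at hM ⊢
  rw [he2] at hZm
  have hCS : (∑ N ∈ T, B N * Z N ^ e) ^ 2 ≤ (∑ N ∈ T, B N) * ∑ N ∈ T, B N * Z N ^ (2 * e) := by
    apply Finset.sum_sq_le_sum_mul_sum_of_sq_eq_mul
    · exact hB
    · intro N hN
      exact mul_nonneg (hB N hN) (pow_nonneg (hZ N hN) _)
    · intro N _
      rw [two_mul e, pow_add]
      ring
  have hS0 : 0 ≤ ∑ N ∈ T, B N := Finset.sum_nonneg hB
  have h2 : ∑ N ∈ T, B N * Z N ^ (2 * e) ≤ ∑ N ∈ T, Z N ^ ((k + 1 + e) + e) := by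
    apply Finset.sum_le_sum
    intro N hN
    have h3 := mul_le_mul_of_nonneg_right (hBZ N hN) (pow_nonneg (hZ N hN) (2 * e))
    rw [← pow_add] at h3
    have h4 : k + 1 + 2 * e = (k + 1 + e) + e := by ring
    rwa [h4] at h3
  have hρK : 0 < ρ ^ (k + 1 + e) := pow_pos hρ _
  have hM0 : 0 ≤ c1 * x * ρ ^ (k + 1 + e) := by positivity
  have h3 : (c1 * x * ρ ^ (k + 1 + e)) ^ 2 ≤
      (∑ N ∈ T, B N) * (C1 * x * (ρ ^ (k + 1 + e) + ρ ^ ((k + 1 + e) + e))) :=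
    (pow_le_pow_left₀ hM0 hM 2).trans (hCS.trans
      (mul_le_mul_of_nonneg_left (h2.trans hZm) hS0))
  obtain ⟨S, hS⟩ : ∃ S, S = ∑ N ∈ T, B N := ⟨_, rfl⟩
  rw [← hS] at h3 hS0 ⊢
  rcases le_or_gt 1 ρ with h1 | h1
  · rw [min_eq_left h1, one_pow, mul_one]
    have h4 : ρ ^ (k + 1 + e) ≤ ρ ^ ((k + 1 + e) + e) :=
      pow_le_pow_right₀ h1 (Nat.le_add_right _ _)
    have hpos : 0 < x * ρ ^ ((k + 1 + e) + e) := mul_pos hx (pow_pos hρ _)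
    have h5 : (c1 ^ 2 * x * ρ ^ (k + 1)) * (x * ρ ^ ((k + 1 + e) + e)) ≤
        (2 * C1 * S) * (x * ρ ^ ((k + 1 + e) + e)) := by
      have h6 : (c1 ^ 2 * x * ρ ^ (k + 1)) * (x * ρ ^ ((k + 1 + e) + e)) =
          (c1 * x * ρ ^ (k + 1 + e)) ^ 2 := by ring
      rw [h6]
      refine h3.trans ?_
      have h7 : S * (C1 * x * (ρ ^ (k + 1 + e) + ρ ^ ((k + 1 + e) + e))) ≤
          S * (C1 * x * (ρ ^ ((k + 1 + e) + e) + ρ ^ ((k + 1 + e) + e))) := by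
        apply mul_le_mul_of_nonneg_left _ hS0
        apply mul_le_mul_of_nonneg_left _ (by positivity)
        linarith
      refine h7.trans (le_of_eq ?_)
      ring
    have h8 := le_of_mul_le_mul_right h5 hpos
    have h9 : c1 ^ 2 / (2 * C1) * x * ρ ^ (k + 1) = (c1 ^ 2 * x * ρ ^ (k + 1)) / (2 * C1) := by
      ring
    rw [h9, div_le_iff₀ (by positivity)]
    linarith
  · rw [min_eq_right h1.le]
    have h4 : ρ ^ ((k + 1 + e) + e) ≤ ρ ^ (k + 1 + e) :=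
      pow_le_pow_of_le_one hρ.le h1.le (Nat.le_add_right _ _)
    have hpos : 0 < x * ρ ^ (k + 1 + e) := mul_pos hx (pow_pos hρ _)
    have h5 : (c1 ^ 2 * x * ρ ^ (k + 1 + e)) * (x * ρ ^ (k + 1 + e)) ≤
        (2 * C1 * S) * (x * ρ ^ (k + 1 + e)) := by
      have h6 : (c1 ^ 2 * x * ρ ^ (k + 1 + e)) * (x * ρ ^ (k + 1 + e)) =
          (c1 * x * ρ ^ (k + 1 + e)) ^ 2 := by ring
      rw [h6]
      refine h3.trans ?_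
      have h7 : S * (C1 * x * (ρ ^ (k + 1 + e) + ρ ^ ((k + 1 + e) + e))) ≤
          S * (C1 * x * (ρ ^ (k + 1 + e) + ρ ^ (k + 1 + e))) := by
        apply mul_le_mul_of_nonneg_left _ hS0
        apply mul_le_mul_of_nonneg_left _ (by positivity)
        linarith
      refine h7.trans (le_of_eq ?_)
      ring
    have h8 := le_of_mul_le_mul_right h5 hpos
    have h9 : c1 ^ 2 / (2 * C1) * x * ρ ^ (k + 1) * ρ ^ e =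
        (c1 ^ 2 * x * ρ ^ (k + 1 + e)) / (2 * C1) := by
      rw [pow_add ρ (k + 1) e]
      ring
    rw [h9, div_le_iff₀ (by positivity)]
    linarith

end Pool.Agent.H61.UN
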