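import Pool.Agent.H61.UN.Def

/-!
# [H61 UN CT] Counting the boxes at one `N` (pure combinatorics)

PROOF. `B ⊆ ⋃_i B_i`, `i` over the injective maps `Fin (k+1) → ι` (at most `(card ι)^(k+1)`), `B_i = {v ∈ B : v ∘ i ∈ G}`. For fixed injective `i` the
map `v ↦ (v ∘ i, restriction of v to the complement of the range of i)` is injective on `B_i`, with values in `G ×ˢ piFinset (fun _ => R)` over the
complement `{j // j ∉ Set.range i}`, which has `card ι - (k+1)` elements (`Fintype.card_subtype_compl`, `Set.card_range_of_injective`). So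
`#B_i ≤ #G · #R^(card ι - (k+1))`.
-/

namespace Pool.Agent.H61.UN

open Finset

theorem box_count {ι : Type} [Fintype ι] [DecidableEq ι] (k : ℕ) (R : Finset ℕ) (B : Finset (ι → ℕ))
    (G : Finset (Fin (k + 1) → ℕ))
    (hB : ∀ v ∈ B, (∀ i, v i ∈ R) ∧ ∃ i : Fin (k + 1) → ι, Function.Injective i ∧ v ∘ i ∈ G) :
    B.card ≤ Fintype.card ι ^ (k + 1) * (G.card * R.card ^ (Fintype.card ι - (k + 1))) := by
  classical
  have hcard : ∀ i : Fin (k + 1) → ι, Function.Injective i →
      Fintype.card {j : ι // j ∉ Set.range i} = Fintype.card ι - (k + 1) := by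
    intro i hi
    rw [Fintype.card_subtype_compl]
    congr 1
    have h1 := Set.card_range_of_injective hi
    rw [Fintype.card_fin] at h1
    exact h1
  have hsub : B ⊆ ((univ : Finset (Fin (k + 1) → ι)).filter Function.Injective).biUnion
      (fun i => B.filter (fun v => v ∘ i ∈ G)) := by
    intro v hv
    obtain ⟨-, i, hi, hG⟩ := hB v hv
    exact mem_biUnion.2 ⟨i, mem_filter.2 ⟨mem_univ _, hi⟩, mem_filter.2 ⟨hv, hG⟩⟩
  have hone : ∀ i ∈ (univ : Finset (Fin (k + 1) → ι)).filter Function.Injective,
      (B.filter (fun v => v ∘ i ∈ G)).card ≤ G.card * R.card ^ (Fintype.card ι - (k + 1)) := by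
    intro i hi
    rw [mem_filter] at hi
    have h1 : (G ×ˢ (Fintype.piFinset (fun _ : {j : ι // j ∉ Set.range i} => R))).card =
        G.card * R.card ^ (Fintype.card ι - (k + 1)) := by
      rw [card_product, Fintype.card_piFinset, prod_const, card_univ, hcard i hi.2]
    rw [← h1]
    apply card_le_card_of_injOn (fun v => (v ∘ i, fun j : {j : ι // j ∉ Set.range i} => v j))
    · intro v hv
      rw [mem_coe, mem_filter] at hv
      rw [mem_coe, mem_product, Fintype.mem_piFinset]
      exact ⟨hv.2, fun j => (hB v hv.1).1 j⟩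
    · intro v _ w _ hvw
      rw [Prod.mk.injEq] at hvw
      funext j
      by_cases hj : j ∈ Set.range i
      · obtain ⟨t, rfl⟩ := hj
        exact congrFun hvw.1 t
      · exact congrFun hvw.2 ⟨j, hj⟩
  refine (card_le_card hsub).trans (card_biUnion_le.trans ?_)
  refine (sum_le_card_nsmul _ _ _ hone).trans ?_
  rw [smul_eq_mul]
  apply Nat.mul_le_mul_right
  refine (card_filter_le _ _).trans ?_
  rw [card_univ, Fintype.card_fun, Fintype.card_fin]

end Pool.Agent.H61.UN
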