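import Pool.Agent.H61.UN.Def

/-!
# [H61 UN WH] The modulus `WHn w D` = product of the primes `≤ w` and of the primes dividing `D`

PROOFS. `wh_sq`: a product of distinct primes is squarefree (`Finset.prod` over a set of primes; e.g. `Finset.squarefree_prod_of_pairwise_isCoprime`
or induction with `Nat.squarefree_mul`). `wh_prim`: `primorial w = ∏ p ∈ (range (w+1)).filter Nat.Prime, p` divides
(`prod_dvd_prod_of_subset`). `wh_dvd`: a prime `p ∣ D`, `D ≠ 0`, is in `D.primeFactors` (`dvd_prod_of_mem`). `wh_le`: `WHn w D ≤ primorial w * D`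
(`prod_union_inter` or `prod_le`: `∏_{A ∪ B} ≤ ∏_A ∏_B` for factors `≥ 1`, and `∏ D.primeFactors ≤ D`: `Nat.prod_primeFactors_dvd`, `Nat.le_of_dvd`),
`primorial_le_four_pow`. `wh_iff`: prime divisors.
`okh`: `n = card ι`, `A' = n² A + 1`. `dd v ≤ L^(n²)` for `L ≥ 1` (at most `n²` factors, each `natAbs ≤ L` as both numbers are in `[0,L]`), so
`WHn w (dd v) ≤ 4^w L^(n²) ≤ log x · (log x)^(A n²)` once `log x ≥ 4^w` (`x` large, `log x ≥ 1`). `y ≤ L ≤ (log x)^A ≤ (log x)^A'`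
(if `n ≥ 1`, `A ≤ A'` as `A > 0`). Differences of elements of the image: `z - y` for `y = v i < z = v j`: `i ≠ j` and `p ∣ z - y` gives
`p ∣ ((v j : ℤ) - v i).natAbs ∣ dd v` (`dvd_dd`), then `wh_dvd`. `cop` from `mem_GC`.
-/

namespace Pool.Agent.H61.UN

open Finset Filter Pool.Agent.H61.UL

/-- the modulus -/
def WHn (w D : ℕ) : ℕ := ∏ p ∈ (range (w + 1)).filter Nat.Prime ∪ D.primeFactors, p

theorem wh_pos (w D : ℕ) : 0 < WHn w D := by
  unfold WHn
  apply prod_pos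
  intro p hp
  rw [mem_union, mem_filter] at hp
  rcases hp with hp | hp
  · exact hp.2.pos
  · exact (Nat.prime_of_mem_primeFactors hp).pos

private theorem sq_prod (s : Finset ℕ) (hs : ∀ p ∈ s, p.Prime) : Squarefree (∏ p ∈ s, p) := by
  induction s using Finset.induction_on with
  | empty => simp
  | insert p s hp ih =>
    rw [prod_insert hp, Nat.squarefree_mul_iff]
    have h1 := hs p (mem_insert_self p s)
    refine ⟨?_, h1.squarefree, ih fun q hq => hs q (mem_insert_of_mem hq)⟩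
    apply Nat.Coprime.prod_right
    intro q hq
    rw [Nat.coprime_primes h1 (hs q (mem_insert_of_mem hq))]
    rintro rfl
    exact hp hq

theorem wh_sq (w D : ℕ) : Squarefree (WHn w D) := by
  apply sq_prod
  intro p hp
  rw [mem_union, mem_filter] at hp
  rcases hp with hp | hp
  · exact hp.2
  · exact Nat.prime_of_mem_primeFactors hp

theorem wh_prim (w D : ℕ) : primorial w ∣ WHn w D := by
  unfold primorial WHn
  exact prod_dvd_prod_of_subset _ _ _ subset_union_left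

theorem wh_dvd {w D p : ℕ} (hD : D ≠ 0) (hp : p.Prime) (h : p ∣ D) : p ∣ WHn w D := by
  unfold WHn
  apply dvd_prod_of_mem (fun p : ℕ => p)
  rw [mem_union]
  exact Or.inr (Nat.mem_primeFactors.2 ⟨hp, h, hD⟩)

theorem wh_le (w D : ℕ) (hD : D ≠ 0) : WHn w D ≤ 4 ^ w * D := by
  have h1 : WHn w D * ∏ p ∈ (range (w + 1)).filter Nat.Prime ∩ D.primeFactors, p =
      primorial w * ∏ p ∈ D.primeFactors, p := by
    unfold WHn primorial
    exact prod_union_inter
  have h2 : 1 ≤ ∏ p ∈ (range (w + 1)).filter Nat.Prime ∩ D.primeFactors, p := by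
    apply Nat.one_le_iff_ne_zero.2
    rw [prod_ne_zero_iff]
    intro p hp
    rw [mem_inter] at hp
    exact (Nat.prime_of_mem_primeFactors hp.2).ne_zero
  have h3 : ∏ p ∈ D.primeFactors, p ≤ D :=
    Nat.le_of_dvd (Nat.pos_of_ne_zero hD) (Nat.prod_primeFactors_dvd D)
  calc WHn w D ≤ WHn w D * ∏ p ∈ (range (w + 1)).filter Nat.Prime ∩ D.primeFactors, p :=
        Nat.le_mul_of_pos_right _ h2
    _ = primorial w * ∏ p ∈ D.primeFactors, p := h1
    _ ≤ 4 ^ w * D := Nat.mul_le_mul (primorial_le_four_pow w) h3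

private theorem dd_le {ι : Type} [Fintype ι] [DecidableEq ι] {L : ℕ} (hL : 1 ≤ L) {v : ι → ℕ}
    (hv : ∀ i, v i ≤ L) : dd v ≤ L ^ (Fintype.card ι ^ 2) := by
  unfold dd
  calc ∏ q ∈ (univ : Finset (ι × ι)).filter (fun q => q.1 ≠ q.2), ((v q.1 : ℤ) - v q.2).natAbs
      ≤ ∏ _q ∈ (univ : Finset (ι × ι)).filter (fun q => q.1 ≠ q.2), L := by
        apply prod_le_prod'
        intro q _
        have h1 := hv q.1
        have h2 := hv q.2
        omega
    _ = L ^ ((univ : Finset (ι × ι)).filter (fun q => q.1 ≠ q.2)).card := prod_const _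
    _ ≤ L ^ (Fintype.card ι ^ 2) := by
        apply Nat.pow_le_pow_right hL
        refine (card_filter_le _ _).trans ?_
        rw [card_univ, Fintype.card_prod, sq]

theorem okh (ι : Type) [Fintype ι] [DecidableEq ι] [Nonempty ι] (A : ℝ) (hA : 0 < A) (w : ℕ) :
    ∀ᶠ x : ℝ in atTop, ∀ L : ℕ, 1 ≤ L → (L : ℝ) ≤ Real.log x ^ A → ∀ v ∈ IJ ι L,
      ((WHn w (dd v) : ℕ) : ℝ) ≤ Real.log x ^ ((Fintype.card ι : ℝ) ^ 2 * A + 1) ∧
      ∀ b ∈ GC (WHn w (dd v)) v,
        OkH ((Fintype.card ι : ℝ) ^ 2 * A + 1) w x (univ.image v) (WHn w (dd v)) b := by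
  have hlog := Real.tendsto_log_atTop
  filter_upwards [hlog.eventually_ge_atTop 1, hlog.eventually_ge_atTop ((4 : ℝ) ^ w)] with x hx1 hx2
  intro L hL hLA v hv
  obtain ⟨hvL, hinj⟩ := mem_IJ.1 hv
  have hn : (1 : ℝ) ≤ (Fintype.card ι : ℝ) := by exact_mod_cast Fintype.card_pos
  have hx0 : 0 < Real.log x := by linarith
  have hW : ((WHn w (dd v) : ℕ) : ℝ) ≤ Real.log x ^ ((Fintype.card ι : ℝ) ^ 2 * A + 1) := by
    have h1 : ((WHn w (dd v) : ℕ) : ℝ) ≤ (4 : ℝ) ^ w * (dd v : ℕ) := by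
      exact_mod_cast wh_le w (dd v) (dd_ne hinj)
    have h2 : ((dd v : ℕ) : ℝ) ≤ (L : ℝ) ^ (Fintype.card ι ^ 2) := by
      exact_mod_cast dd_le hL hvL
    have h3 : (L : ℝ) ^ (Fintype.card ι ^ 2) ≤ Real.log x ^ ((Fintype.card ι : ℝ) ^ 2 * A) := by
      have h4 : Real.log x ^ ((Fintype.card ι : ℝ) ^ 2 * A) =
          (Real.log x ^ A) ^ (Fintype.card ι ^ 2) := by
        rw [← Real.rpow_mul_natCast hx0.le]
        congr 1
        push_cast
        ring
      rw [h4]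
      exact pow_le_pow_left₀ (Nat.cast_nonneg _) hLA _
    calc ((WHn w (dd v) : ℕ) : ℝ) ≤ (4 : ℝ) ^ w * (dd v : ℕ) := h1
      _ ≤ Real.log x * Real.log x ^ ((Fintype.card ι : ℝ) ^ 2 * A) :=
          mul_le_mul hx2 (h2.trans h3) (Nat.cast_nonneg _) hx0.le
      _ = Real.log x ^ ((Fintype.card ι : ℝ) ^ 2 * A + 1) := by
          rw [Real.rpow_add hx0, Real.rpow_one, mul_comm]
  refine ⟨hW, fun b hb => ⟨?_, wh_prim w _, wh_sq w _, hW, ?_, ?_⟩⟩
  · intro y hy
    obtain ⟨i, -, rfl⟩ := mem_image.1 hy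
    have h1 : ((v i : ℕ) : ℝ) ≤ L := by exact_mod_cast hvL i
    refine (h1.trans hLA).trans ?_
    apply Real.rpow_le_rpow_of_exponent_le hx1
    have h2 : (1 : ℝ) ≤ (Fintype.card ι : ℝ) ^ 2 := one_le_pow₀ hn
    nlinarith
  · intro y hy z hz hyz p hp hpd
    obtain ⟨i, -, rfl⟩ := mem_image.1 hy
    obtain ⟨j, -, rfl⟩ := mem_image.1 hz
    have hij : j ≠ i := by
      rintro rfl
      exact lt_irrefl _ hyz
    apply wh_dvd (dd_ne hinj) hp
    refine dvd_trans ?_ (dvd_dd v hij)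
    have h1 : ((v j : ℤ) - v i).natAbs = v j - v i := by omega
    rw [h1]
    exact hpd
  · intro y hy
    obtain ⟨i, -, rfl⟩ := mem_image.1 hy
    exact (mem_GC.1 hb).2 i

end Pool.Agent.H61.UN
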