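import Pool.Agent.H61.UN.Nb
import Pool.Agent.H61.UN.Wh

/-!
# [H61 UN OB] One box

PROOF. `K = m s = card (Fin m × Fin s)`. Take `s, a, C2` from `hU e`. Given `A`: `A' = K² A + 1`, `w0` from `hU` for `A'`, `w = max w0 K`; `x` large
for `hU`, `okh`, `nm_sum` (for `A'`), `nmu_pos`. Let `v ∈ IJ _ L` be admissible, `W = WHn w (dd v)`, `V j = univ.image (fun l => v (j, l))`: disjoint, of
cardinality `s` (injectivity), `univ.biUnion V = univ.image v`. For `b ∈ GC W v` we get `μ = μ_b` from `hU`.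
Double counting: `∑_j 1[cell j has a prime at N] = pc v N ≤ m`. So `(13/50 - e) m ≤ ∑_j P(cell j) = ∑_N μ N pc v N ≤ m μ(E) + (13/50 - 2e) m`
where `E` = the `N ∈ Tx x` with `(13/50 - 2e) m ≤ pc v N` (outside `E`: `pc v N ≤ (13/50 - 2e) m`; total mass `1`; if `13/50 - 2e < 0` then `E` is
everything and `μ(E) = 1 ≥ e`... in that case `e > 13/100`; assume `e ≤ 1/100`, which is a hypothesis `he1` of the theorem). Hence `μ(E) ≥ e`.
`μ N ≠ 0` implies `AdmH`, i.e. `N % W = b % W` and all `N + v i` `x^a`-rough (`Rgh`), and `μ N ≤ C2 gw x N/nm`: so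
`(e/C2) nm ≤ ∑_{N ∈ Tx x, N % W = b % W, rough, E} gw x N`. Sum over `b ∈ GC W v`: the sets on the right side are disjoint for different `b < W` (`b % W = b`), the
union is contained in the set of the theorem; the left side is `≥ (e/C2) c x/(log x)^K` (`nm_sum`). Constant `e c/C2`.
-/

namespace Pool.Agent.H61.UN

open Finset Filter Pool.Agent.H21.MT Pool.Agent.H92.MM Pool.Agent.H61.UL

open Classical in
private theorem ob_one {m s : ℕ} (hm : 1 ≤ m) {e C2 nmv : ℝ} (he : 0 < e) (he1 : e ≤ 1 / 100)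
    (hC2 : 0 < C2) (hnm : 0 < nmv) {x a : ℝ} (v : Fin m × Fin s → ℕ) {W b : ℕ} (μ : ℕ → ℝ)
    (h0 : ∀ N, 0 ≤ μ N)
    (h1 : ∀ N, μ N ≠ 0 → N % W = b % W ∧ ∀ i, Rgh (x ^ a) (N + v i))
    (h2 : ∀ N, μ N ≤ C2 * gw x N / nmv) (h3 : ∑ N ∈ Tx x, μ N = 1)
    (h4 : ∀ j : Fin m, 13 / 50 - e ≤
      ∑ N ∈ (Tx x).filter (fun N => ∃ l : Fin s, (N + v (j, l)).Prime), μ N) :
    e / C2 * nmv ≤ ∑ N ∈ (Tx x).filter (fun N => (∀ i, Rgh (x ^ a) (N + v i)) ∧
              (13 / 50 - 2 * e) * m ≤ (pc v N : ℝ)), if N % W = b % W then gw x N else 0 := by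
  have hm0 : (0 : ℝ) < m := by exact_mod_cast hm
  have hpc : ∀ N, (pc v N : ℝ) =
      ∑ j : Fin m, if (∃ l : Fin s, (N + v (j, l)).Prime) then (1 : ℝ) else 0 := by
    intro N
    unfold pc
    rw [sum_boole]
  have hpcm : ∀ N, (pc v N : ℝ) ≤ m := by
    intro N
    have : pc v N ≤ m := by
      unfold pc
      refine (card_filter_le _ _).trans ?_
      rw [card_univ, Fintype.card_fin]
    exact_mod_cast this
  have hdc : (13 / 50 - e) * m ≤ ∑ N ∈ Tx x, μ N * (pc v N : ℝ) := by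
    calc (13 / 50 - e) * m = ∑ _j : Fin m, (13 / 50 - e) := by
          rw [sum_const, card_univ, Fintype.card_fin, nsmul_eq_mul, mul_comm]
      _ ≤ ∑ j : Fin m, ∑ N ∈ (Tx x).filter (fun N => ∃ l : Fin s, (N + v (j, l)).Prime), μ N :=
          sum_le_sum fun j _ => h4 j
      _ = ∑ j : Fin m, ∑ N ∈ Tx x, μ N *
            (if (∃ l : Fin s, (N + v (j, l)).Prime) then (1 : ℝ) else 0) := by
          refine sum_congr rfl fun j _ => ?_
          rw [sum_filter]
          refine sum_congr rfl fun N _ => ?_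
          split_ifs <;> simp
      _ = ∑ N ∈ Tx x, μ N * (pc v N : ℝ) := by
          rw [sum_comm]
          refine sum_congr rfl fun N _ => ?_
          rw [hpc, mul_sum]
  obtain ⟨E, hE⟩ : ∃ E : Finset ℕ, E = (Tx x).filter (fun N => (13 / 50 - 2 * e) * m ≤ (pc v N : ℝ)) :=
    ⟨_, rfl⟩
  have hup : ∑ N ∈ Tx x, μ N * (pc v N : ℝ) ≤ m * ∑ N ∈ E, μ N + (13 / 50 - 2 * e) * m := by
    rw [← sum_filter_add_sum_filter_not (Tx x) (fun N => (13 / 50 - 2 * e) * m ≤ (pc v N : ℝ)),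
      ← hE]
    refine add_le_add ?_ ?_
    · rw [mul_sum]
      refine sum_le_sum fun N _ => ?_
      rw [mul_comm]
      exact mul_le_mul_of_nonneg_right (hpcm N) (h0 N)
    · calc _ ≤ ∑ N ∈ (Tx x).filter (fun N => ¬ (13 / 50 - 2 * e) * m ≤ (pc v N : ℝ)),
            μ N * ((13 / 50 - 2 * e) * m) := by
            refine sum_le_sum fun N hN => ?_
            rw [mem_filter, not_le] at hN
            exact mul_le_mul_of_nonneg_left hN.2.le (h0 N)
        _ ≤ ∑ N ∈ Tx x, μ N * ((13 / 50 - 2 * e) * m) := by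
            refine sum_le_sum_of_subset_of_nonneg (filter_subset _ _) fun N _ _ => ?_
            refine mul_nonneg (h0 N) (mul_nonneg (by linarith) hm0.le)
        _ = _ := by rw [← sum_mul, h3, one_mul]
  have hEe : e ≤ ∑ N ∈ E, μ N := by
    have h5 := hdc.trans hup
    have h6 : e * m ≤ (∑ N ∈ E, μ N) * m := by linarith
    exact le_of_mul_le_mul_right h6 hm0
  have hfin : ∑ N ∈ E, μ N ≤ C2 / nmv *
      ∑ N ∈ (Tx x).filter (fun N => (∀ i, Rgh (x ^ a) (N + v i)) ∧
              (13 / 50 - 2 * e) * m ≤ (pc v N : ℝ)), if N % W = b % W then gw x N else 0 := by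
    rw [mul_sum]
    have h7 : ∑ N ∈ E, μ N = ∑ N ∈ (Tx x).filter (fun N => (∀ i, Rgh (x ^ a) (N + v i)) ∧
              (13 / 50 - 2 * e) * m ≤ (pc v N : ℝ)), μ N := by
      rw [hE]
      symm
      refine sum_subset ?_ ?_
      · intro N hN
        rw [mem_filter] at hN ⊢
        exact ⟨hN.1, hN.2.2⟩
      · intro N hN hN'
        rw [mem_filter] at hN
        by_contra hne
        apply hN'
        rw [mem_filter]
        exact ⟨hN.1, (h1 N hne).2, hN.2⟩
    rw [h7]
    refine sum_le_sum fun N _ => ?_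
    by_cases hne : μ N = 0
    · rw [hne]
      refine mul_nonneg (by positivity) ?_
      split_ifs
      · exact (Real.exp_pos _).le
      · exact le_rfl
    · rw [if_pos (h1 N hne).1]
      calc μ N ≤ C2 * gw x N / nmv := h2 N
        _ = C2 / nmv * gw x N := by ring
  have h8 := hEe.trans hfin
  rw [div_mul_eq_mul_div, le_div_iff₀ hnm] at h8
  rw [div_mul_eq_mul_div, div_le_iff₀ hC2]
  linarith

open Classical in
theorem one_box (hU : BlkU) (e : ℝ) (he : 0 < e) (he1 : e ≤ 1 / 100) (m : ℕ) (hm : 1 ≤ m) :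
    ∃ (s : ℕ) (a : ℝ), 1 ≤ s ∧ 0 < a ∧ a ≤ 1 / 20 ∧ ∀ A : ℝ, 0 < A → ∃ c : ℝ, 0 < c ∧
      ∀ᶠ x : ℝ in atTop, ∀ L : ℕ, 1 ≤ L → (L : ℝ) ≤ Real.log x ^ A →
        ∀ v ∈ IJ (Fin m × Fin s) L, Admv v →
          c * x / Real.log x ^ (m * s) ≤
            ∑ N ∈ (Tx x).filter (fun N => (∀ i, Rgh (x ^ a) (N + v i)) ∧
              (13 / 50 - 2 * e) * m ≤ (pc v N : ℝ)), gw x N := by
  obtain ⟨s, a, C2, hs, ha, ha1, hC2, hB⟩ := hU e he m hm
  refine ⟨s, a, hs, ha, ha1, ?_⟩
  intro A hA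
  have hcard : Fintype.card (Fin m × Fin s) = m * s := by
    rw [Fintype.card_prod, Fintype.card_fin, Fintype.card_fin]
  haveI : Nonempty (Fin m × Fin s) := ⟨(⟨0, by omega⟩, ⟨0, by omega⟩)⟩
  obtain ⟨A', hA'⟩ : ∃ A' : ℝ, A' = (Fintype.card (Fin m × Fin s) : ℝ) ^ 2 * A + 1 := ⟨_, rfl⟩
  have hA'0 : 0 < A' := by rw [hA']; positivity
  obtain ⟨w0, hw0⟩ := hB A' hA'0
  obtain ⟨w, hw⟩ : ∃ w : ℕ, w = max w0 (m * s) := ⟨_, rfl⟩
  have hw0w : w0 ≤ w := by rw [hw]; exact le_max_left _ _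
  have hKw : m * s ≤ w := by rw [hw]; exact le_max_right _ _
  obtain ⟨c, hc, hnms⟩ := nm_sum (Fin m × Fin s) a ha (by linarith)
  refine ⟨e / C2 * c, by positivity, ?_⟩
  filter_upwards [hw0 w hw0w, okh (Fin m × Fin s) A hA w, nmu_pos (m * s) w hKw a,
    hnms A' w (by rw [hcard]; exact hKw)] with x hx1 hx2 hx3 hx4 L hL hLx v hv hadm
  obtain ⟨hWle, hOk⟩ := hx2 L hL hLx v hv
  rw [← hA'] at hWle hOk
  obtain ⟨W, hW⟩ : ∃ W, W = WHn w (dd v) := ⟨_, rfl⟩
  have hWpos : 0 < W := by rw [hW]; exact wh_pos _ _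
  have hWsq : Squarefree W := by rw [hW]; exact wh_sq _ _
  have hWpr : primorial w ∣ W := by rw [hW]; exact wh_prim _ _
  rw [← hW] at hWle hOk
  have hnm : 0 < nm x a W (m * s) := hx3 W hWpos hWpr
  have hsum := hx4 W hWsq hWpr hWle v hadm
  rw [hcard] at hsum
  have hvinj : Function.Injective v := (mem_IJ.1 hv).2
  have hbU : (univ : Finset (Fin m)).biUnion (fun j => univ.image (fun l : Fin s => v (j, l))) =
      univ.image v := by
    ext y
    simp only [mem_biUnion, mem_image, mem_univ, true_and, Prod.exists]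
  have hone : ∀ b ∈ GC W v, e / C2 * nm x a W (m * s) ≤
      ∑ N ∈ (Tx x).filter (fun N => (∀ i, Rgh (x ^ a) (N + v i)) ∧
              (13 / 50 - 2 * e) * m ≤ (pc v N : ℝ)), if N % W = b then gw x N else 0 := by
    intro b hb
    have hbW : b < W := (mem_GC.1 hb).1
    obtain ⟨μ, h0, h1, h2, h3, h4⟩ := hx1 (fun j => univ.image (fun l : Fin s => v (j, l))) W b
      (by
        intro i j hij
        rw [disjoint_left]
        intro y hy hy'
        rw [mem_image] at hy hy'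
        obtain ⟨l, _, hl⟩ := hy
        obtain ⟨l', _, hl'⟩ := hy'
        have := hvinj (hl.trans hl'.symm)
        exact hij (Prod.ext_iff.1 this).1)
      (by
        intro j
        rw [card_image_of_injective, card_univ, Fintype.card_fin]
        intro l l' hll
        exact (Prod.ext_iff.1 (hvinj hll)).2)
      (by
        rw [hbU]
        exact hOk b hb)
    have hres := ob_one (a := a) hm he he1 hC2 hnm v (b := b) μ h0 (by
        intro N hN
        obtain ⟨_, h5, h6⟩ := h1 N hN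
        refine ⟨h5, fun i p hp hpN => h6 (v i) ?_ p hp hpN⟩
        rw [hbU]
        exact mem_image_of_mem v (mem_univ i)) h2 h3 (by
        intro j
        refine (h4 j).trans (le_of_eq ?_)
        congr 1
        refine filter_congr fun N _ => ?_
        simp only [mem_image, mem_univ, true_and, exists_exists_eq_and])
    rw [Nat.mod_eq_of_lt hbW] at hres
    exact hres
  calc e / C2 * c * x / Real.log x ^ (m * s) = e / C2 * (c * x / Real.log x ^ (m * s)) := by ring
    _ ≤ e / C2 * ∑ _b ∈ GC W v, nm x a W (m * s) := by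
        refine mul_le_mul_of_nonneg_left hsum (by positivity)
    _ = ∑ _b ∈ GC W v, e / C2 * nm x a W (m * s) := by rw [mul_sum]
    _ ≤ ∑ b ∈ GC W v, ∑ N ∈ (Tx x).filter (fun N => (∀ i, Rgh (x ^ a) (N + v i)) ∧
              (13 / 50 - 2 * e) * m ≤ (pc v N : ℝ)), (if N % W = b then gw x N else 0) :=
        sum_le_sum hone
    _ ≤ _ := by
        rw [sum_comm]
        refine sum_le_sum fun N _ => ?_
        rw [sum_ite_eq]
        split_ifs
        · exact le_rfl
        · exact (Real.exp_pos _).le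

end Pool.Agent.H61.UN
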