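import Pool.Agent.H61.UN.Mo

/-!
# [H61 UN TL] The factorial moments with the Gaussian weight; tail and total

`Tx x = Ioc ⌊√x⌋ ⌊x^(1+1/2000)⌋`, `gw x N = exp(-(log(N/x))²/2)`.

PROOFS. Let `F N = #RJ ι x a L N ≥ 0`, `n = card ι`, `ρ = L/log x`. For `x > 0`, `N ≥ 1`: `gw x N ≤ exp(9/2) (x/N)^3`, since with
`u = log(N/x)`: `-u²/2 ≤ 9/2 - 3u` (`(u-3)² ≥ 0`) and `exp(-3u) = (x/N)^3`.
* `tail`: let `T ≥ 1`. The `N ∈ Tx x` with `T x < N` are covered by the dyadic pieces `2^j T x < N ≤ 2^(j+1) T x`, `j < J0` (some `J0`, e.g. the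
  least `j` with `2^j ≥ ⌊x^(1+1/2000)⌋`). On the piece `j`: `gw ≤ e^(9/2) (2^j T)^(-3)`, and by `mom_fac` with
  `Y = ⌊2^(j+1) T x⌋ ≥ x ≥ √x`: `∑ F ≤ C 2^(j+1) T x ρ^n`. So the sum is `≤ e^(9/2) C T^(-2) x ρ^n ∑_j 2^(j+1) 8^(-j) ≤ 4 e^(9/2) C x ρ^n/T`.
  (Alternatively avoid the dyadic pieces: group `N` by `j = Nat.log 2 (⌊N/(T x)⌋)`.)
* `total`: the `N ≤ x` (`gw ≤ 1`) give `≤ C x ρ^n` by `mom_fac` with `Y = ⌊x⌋ ≥ √x` (`x` large), the others are `tail` with `T = 1`.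
-/

namespace Pool.Agent.H61.UN

open Finset Filter Pool.Agent.H21.MT Pool.Agent.H92.MM

theorem gw_le_cube {x : ℝ} (hx : 0 < x) {N : ℕ} (hN : 1 ≤ N) :
    gw x N ≤ Real.exp (9 / 2) * (x / N) ^ 3 := by
  have hN0 : (0 : ℝ) < N := by exact_mod_cast hN
  unfold gw
  have h1 : (x / N) ^ 3 = Real.exp (-3 * Real.log (N / x)) := by
    have h2 : Real.log (N / x) = -Real.log (x / N) := by
      rw [← Real.log_inv, inv_div]
    rw [h2, show -3 * -Real.log (x / N) = (3 : ℕ) * Real.log (x / N) by push_cast; ring, Real.exp_nat_mul,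
      Real.exp_log (by positivity)]
  rw [h1, ← Real.exp_add]
  apply Real.exp_le_exp.2
  nlinarith [sq_nonneg (Real.log (N / x) - 3)]

theorem tail (ι : Type) [Fintype ι] [DecidableEq ι] [Nonempty ι] (a : ℝ) (ha : 0 < a) :
    ∃ C : ℝ, 0 < C ∧ ∀ᶠ x : ℝ in atTop, ∀ L : ℕ, 1 ≤ L → ∀ T : ℝ, 1 ≤ T →
      ∑ N ∈ (Tx x).filter (fun N : ℕ => T * x < (N : ℝ)), gw x N * ((RJ ι x a L N).card : ℝ) ≤
        C / T * x * ((L : ℝ) / Real.log x) ^ Fintype.card ι := by
  obtain ⟨C0, hC0, hmom⟩ := mom_fac ι a ha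
  refine ⟨4 * Real.exp (9 / 2) * C0, by positivity, ?_⟩
  filter_upwards [hmom, eventually_ge_atTop 2] with x hx hx2
  intro L hL T hT
  have hlog : 0 < Real.log x := Real.log_pos (by linarith)
  obtain ⟨R, hR⟩ : ∃ R : ℝ, R = ((L : ℝ) / Real.log x) ^ Fintype.card ι := ⟨_, rfl⟩
  have hR0 : 0 ≤ R := by
    rw [hR]
    positivity
  have hx' := hx L hL
  rw [← hR] at hx' ⊢
  have hTx : 0 < T * x := by positivity
  have hTx1 : x ≤ T * x := le_mul_of_one_le_left (by linarith) hT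
  obtain ⟨A, hA⟩ : ∃ A : Finset ℕ, A = (Tx x).filter (fun N : ℕ => T * x < (N : ℝ)) := ⟨_, rfl⟩
  rw [← hA]
  obtain ⟨j, hj⟩ : ∃ j : ℕ → ℕ, j = fun N : ℕ => Nat.log 2 ⌊(N : ℝ) / (T * x)⌋₊ := ⟨_, rfl⟩
  have hjN : ∀ N ∈ A, (2 : ℝ) ^ j N * (T * x) ≤ N ∧ (N : ℝ) < 2 ^ (j N + 1) * (T * x) := by
    intro N hN
    rw [hA, mem_filter] at hN
    have h1 : 1 ≤ (N : ℝ) / (T * x) := by
      rw [le_div_iff₀ hTx, one_mul]
      exact hN.2.le
    have h2 : 1 ≤ ⌊(N : ℝ) / (T * x)⌋₊ := Nat.le_floor (by exact_mod_cast h1)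
    have h3 := Nat.pow_log_le_self 2 (x := ⌊(N : ℝ) / (T * x)⌋₊) (by omega)
    have h4 := Nat.lt_pow_succ_log_self (b := 2) (by norm_num) ⌊(N : ℝ) / (T * x)⌋₊
    have h5 : j N = Nat.log 2 ⌊(N : ℝ) / (T * x)⌋₊ := by rw [hj]
    rw [← h5] at h3 h4
    constructor
    · have h6 : ((2 ^ j N : ℕ) : ℝ) ≤ (⌊(N : ℝ) / (T * x)⌋₊ : ℝ) := by exact_mod_cast h3
      have h7 := Nat.floor_le (show (0 : ℝ) ≤ (N : ℝ) / (T * x) by positivity)
      rw [← le_div_iff₀ hTx]
      push_cast at h6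
      linarith
    · have h6 : (⌊(N : ℝ) / (T * x)⌋₊ : ℝ) + 1 ≤ ((2 ^ (j N).succ : ℕ) : ℝ) := by exact_mod_cast h4
      have h7 := Nat.lt_floor_add_one ((N : ℝ) / (T * x))
      rw [← div_lt_iff₀ hTx]
      push_cast at h6
      rw [Nat.succ_eq_add_one] at h6
      linarith
  classical
  rw [← sum_fiberwise_of_maps_to (s := A) (t := A.image j) (g := j) (fun N hN => mem_image_of_mem j hN)]
  have hpiece : ∀ i ∈ A.image j, ∑ N ∈ A.filter (fun N => j N = i), gw x N * ((RJ ι x a L N).card : ℝ) ≤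
      2 * Real.exp (9 / 2) * C0 / T * x * R * (1 / 4) ^ i := by
    intro i _
    have h1 : ∀ N ∈ A.filter (fun N => j N = i), gw x N * ((RJ ι x a L N).card : ℝ) ≤
        Real.exp (9 / 2) * (1 / (2 ^ i * T)) ^ 3 * ((RJ ι x a L N).card : ℝ) := by
      intro N hN
      rw [mem_filter] at hN
      have h2 := (hjN N hN.1).1
      rw [hN.2] at h2
      have hN0 : (0 : ℝ) < N := lt_of_lt_of_le (by positivity) h2
      have hN1 : 1 ≤ N := by exact_mod_cast hN0
      refine mul_le_mul_of_nonneg_right ((gw_le_cube (by linarith) hN1).trans ?_) (Nat.cast_nonneg _)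
      refine mul_le_mul_of_nonneg_left ?_ (Real.exp_pos _).le
      refine pow_le_pow_left₀ (by positivity) ?_ 3
      rw [div_le_div_iff₀ hN0 (by positivity), one_mul]
      calc x * (2 ^ i * T) = 2 ^ i * (T * x) := by ring
        _ ≤ N := h2
    refine (sum_le_sum h1).trans ?_
    rw [← mul_sum]
    obtain ⟨Y, hY⟩ : ∃ Y : ℕ, Y = ⌊2 ^ (i + 1) * (T * x)⌋₊ := ⟨_, rfl⟩
    have hYle : (Y : ℝ) ≤ 2 ^ (i + 1) * (T * x) := by
      rw [hY]
      exact Nat.floor_le (by positivity)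
    have h2i : (2 : ℝ) ≤ 2 ^ (i + 1) := by
      rw [pow_succ]
      have := one_le_pow₀ (M₀ := ℝ) (a := 2) (n := i) (by norm_num)
      linarith
    have hYge : Real.sqrt x ≤ Y := by
      have h3 : (2 : ℝ) ^ (i + 1) * (T * x) < Y + 1 := by
        rw [hY]
        exact Nat.lt_floor_add_one _
      have h4 : 2 * x ≤ 2 ^ (i + 1) * (T * x) := mul_le_mul h2i hTx1 (by linarith) (by positivity)
      have h5 : Real.sqrt x ≤ x := by
        rw [Real.sqrt_le_left (by linarith)]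
        nlinarith
      linarith
    have h3 : ∑ N ∈ A.filter (fun N => j N = i), ((RJ ι x a L N).card : ℝ) ≤ ∑ N ∈ Ioc 0 Y, ((RJ ι x a L N).card : ℝ) := by
      apply sum_le_sum_of_subset_of_nonneg
      · intro N hN
        rw [mem_filter] at hN
        have h4 := hjN N hN.1
        rw [hN.2] at h4
        have hN0 : (0 : ℝ) < N := lt_of_lt_of_le (by positivity) h4.1
        have hN1 : 0 < N := by exact_mod_cast hN0
        rw [mem_Ioc]
        refine ⟨hN1, ?_⟩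
        rw [hY]
        exact Nat.le_floor h4.2.le
      · exact fun _ _ _ => Nat.cast_nonneg _
    have h4 := (h3.trans (hx' Y hYge)).trans
      (mul_le_mul_of_nonneg_right (mul_le_mul_of_nonneg_left hYle hC0.le) hR0)
    have h5 := mul_le_mul_of_nonneg_left h4
      (show (0 : ℝ) ≤ Real.exp (9 / 2) * (1 / (2 ^ i * T)) ^ 3 by positivity)
    refine h5.trans ?_
    have hT0 : 0 < T := by linarith
    have h6 : Real.exp (9 / 2) * (1 / (2 ^ i * T)) ^ 3 * (C0 * (2 ^ (i + 1) * (T * x)) * R) =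
        2 * Real.exp (9 / 2) * C0 / T ^ 2 * x * R * (1 / 4) ^ i := by
      have h7 : (2 : ℝ) ^ (i + 1) = 2 * 2 ^ i := by ring
      have h8 : (1 / 4 : ℝ) ^ i = 1 / ((2 : ℝ) ^ i) ^ 2 := by
        rw [one_div_pow, ← pow_mul, mul_comm i 2, pow_mul]
        norm_num
      rw [h7, h8]
      field_simp
    rw [h6]
    refine mul_le_mul_of_nonneg_right ?_ (by positivity)
    refine mul_le_mul_of_nonneg_right ?_ hR0
    refine mul_le_mul_of_nonneg_right ?_ (by linarith)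
    refine div_le_div_of_nonneg_left (by positivity) hT0 ?_
    nlinarith
  refine (sum_le_sum hpiece).trans ?_
  rw [← mul_sum]
  have hsum : ∑ i ∈ A.image j, (1 / 4 : ℝ) ^ i ≤ 2 := by
    have h1 : Summable (fun i : ℕ => (1 / 4 : ℝ) ^ i) := summable_geometric_of_lt_one (by norm_num) (by norm_num)
    have h2 := h1.sum_le_tsum (A.image j) (fun i _ => by positivity)
    rw [tsum_geometric_of_lt_one (by norm_num) (by norm_num)] at h2
    refine h2.trans ?_
    norm_num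
  have h1 : (0 : ℝ) ≤ 2 * Real.exp (9 / 2) * C0 / T * x * R := by positivity
  refine (mul_le_mul_of_nonneg_left hsum h1).trans (le_of_eq ?_)
  ring

theorem total (ι : Type) [Fintype ι] [DecidableEq ι] [Nonempty ι] (a : ℝ) (ha : 0 < a) :
    ∃ C : ℝ, 0 < C ∧ ∀ᶠ x : ℝ in atTop, ∀ L : ℕ, 1 ≤ L →
      ∑ N ∈ Tx x, gw x N * ((RJ ι x a L N).card : ℝ) ≤
        C * x * ((L : ℝ) / Real.log x) ^ Fintype.card ι := by
  obtain ⟨C0, hC0, hmom⟩ := mom_fac ι a ha
  obtain ⟨C1, hC1, htail⟩ := tail ι a ha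
  refine ⟨C0 + C1, by positivity, ?_⟩
  filter_upwards [hmom, htail, eventually_ge_atTop 4] with x hx ht hx4
  intro L hL
  have hlog : 0 < Real.log x := Real.log_pos (by linarith)
  obtain ⟨R, hR⟩ : ∃ R : ℝ, R = ((L : ℝ) / Real.log x) ^ Fintype.card ι := ⟨_, rfl⟩
  have hR0 : 0 ≤ R := by
    rw [hR]
    positivity
  have hx' := hx L hL
  have ht' := ht L hL 1 le_rfl
  rw [← hR] at hx' ht' ⊢
  rw [← sum_filter_add_sum_filter_not (Tx x) (fun N : ℕ => 1 * x < (N : ℝ))]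
  have hx0 : 0 < x := by linarith
  have hfl : Real.sqrt x ≤ (⌊x⌋₊ : ℝ) := by
    have h1 := Nat.lt_floor_add_one x
    have h2 : 2 ≤ Real.sqrt x := by
      rw [show (2 : ℝ) = Real.sqrt 4 by rw [show (4 : ℝ) = 2 ^ 2 by norm_num, Real.sqrt_sq (by norm_num)]]
      exact Real.sqrt_le_sqrt hx4
    have h3 := Real.mul_self_sqrt hx0.le
    nlinarith
  have h1 : ∑ N ∈ (Tx x).filter (fun N : ℕ => ¬ 1 * x < (N : ℝ)), gw x N * ((RJ ι x a L N).card : ℝ) ≤
      C0 * x * R := by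
    calc ∑ N ∈ (Tx x).filter (fun N : ℕ => ¬ 1 * x < (N : ℝ)), gw x N * ((RJ ι x a L N).card : ℝ)
        ≤ ∑ N ∈ (Tx x).filter (fun N : ℕ => ¬ 1 * x < (N : ℝ)), ((RJ ι x a L N).card : ℝ) := by
          refine sum_le_sum fun N _ => ?_
          refine mul_le_of_le_one_left (Nat.cast_nonneg _) ?_
          unfold gw
          rw [Real.exp_le_one_iff]
          have := sq_nonneg (Real.log (N / x))
          linarith
      _ ≤ ∑ N ∈ Ioc 0 ⌊x⌋₊, ((RJ ι x a L N).card : ℝ) := by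
          apply sum_le_sum_of_subset_of_nonneg
          · intro N hN
            rw [mem_filter] at hN
            have h2 := hN.1
            unfold Tx at h2
            rw [mem_Ioc] at h2
            rw [mem_Ioc]
            refine ⟨by omega, Nat.le_floor ?_⟩
            have h3 := hN.2
            push Not at h3
            linarith
          · exact fun _ _ _ => Nat.cast_nonneg _
      _ ≤ C0 * (⌊x⌋₊ : ℝ) * R := hx' _ hfl
      _ ≤ C0 * x * R := by
          refine mul_le_mul_of_nonneg_right ?_ hR0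
          exact mul_le_mul_of_nonneg_left (Nat.floor_le hx0.le) hC0.le
  rw [div_one] at ht'
  have h2 := add_le_add ht' h1
  refine h2.trans (le_of_eq ?_)
  ring

end Pool.Agent.H61.UN
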