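import Pool.Agent.H61.UN.Zc
import Pool.Agent.H61.UN.Tl
import Pool.Agent.H61.UN.Ob
import Pool.Agent.H61.UN.Ct
import Pool.Agent.H61.UN.Cs

/-!
# [H61 UN MAIN] Assembly of part B

PROOF. `ι = Fin m × Fin s`, `K = m s ≥ m ≥ k+1`, `ρ = L/log x`. `s, a` from `one_box` (constant `c0` for `A`). Constants: `Ct` of `tail ι`, `Co` of
`total (Option ι)` (`card = K+1`), `Cm` of `mom_pow K (2K-(k+1))` (`K ≤ 2K-(k+1)`), `T = max 1 (4 Ct/(c0 δ))`, `lam = c0 δ/(4 Co)`.
For `v ∈ BB` let `E v` = the `N ∈ Tx x` with all `N + v i` rough and `(13/50 - 2e) m ≤ pc v N`; `∑_{N ∈ E v} gw ≥ c0 x/(log x)^K` and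
`#BB ≥ δ L^K`: `S0 = ∑_{v ∈ BB} ∑_{N ∈ E v} gw ≥ c0 δ x ρ^K`. The part with `N > T x` is `≤ ∑_{N > Tx} gw #RJ ι ≤ (Ct/T) x ρ^K ≤ (c0 δ/4) x ρ^K`
(swap sums; `v ∈ BB`, `N ∈ E v` gives `v ∈ RJ`). If `cons`: the pairs `(v, N)`, `N ∈ E v`, such that some `y ≤ L` outside the range of `v` has `N + y`
rough: `Option.elim`-extension of `v` by `y` is in `RJ (Option ι) x a L N` and determines `v`, so they contribute
`≤ ∑_N gw #RJ (Option ι) ≤ Co x ρ^(K+1) ≤ Co lam x ρ^K ≤ (c0 δ/4) x ρ^K` (`ρ ≤ lam`). For the remaining pairs `(v, N)`, `N ≤ T x`, `gw ≤ 1` (`gw_le_one`), so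
`∑_{N ∈ Tx x, N ≤ T x} #{v ∈ BB : N ∈ E v, good} ≥ (c0 δ/2) x ρ^K`. At such `(v, N)` the hypothesis `hG` applies: if `cons` every prime `N + y`, `y ≤ L`,
is rough (`N + y > √x ≥ x^a`, its only prime factor is itself), so `y` is in the range of `v`. Hence `∃ i` injective with `v ∘ i ∈ G N`; `v i ∈ RS`. By
`box_count` the number of good `v` at `N` is `≤ K^(k+1) #(G N) Z^(K-(k+1))`, `Z = #RS`, and it is `0` unless `K ≤ Z` (`v` injective into `RS`). Let `T0` = the
`N ∈ Tx x`, `N ≤ T x`, `K ≤ Z N`. `B N = #(G N) ≤ Z^(k+1)` (`G N ⊆ piFinset RS`: the sites of `r ∈ G N` carry primes, hence are rough).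
`cs_fin` with `c1 = c0 δ/(2 K^(k+1))`, `C1 = Cm T` (`mom_pow` with `Y = ⌊T x⌋ ≥ √x`, `Y ≤ T x`; `T0 ⊆ (Ioc 0 Y).filter ..`). The conclusion for
`T0` implies the one for the larger set.
-/

namespace Pool.Agent.H61.UN

open Finset Filter Pool.Agent.H21.MT Pool.Agent.H92.MM Pool.Agent.H61.UL

theorem main_swap {α : Type} (S : Finset ℕ) (BB : Finset α) (P : α → ℕ → Prop)
    [∀ v, DecidablePred (P v)] [∀ N, DecidablePred (fun v => P v N)] (w : ℕ → ℝ) :
    ∑ v ∈ BB, ∑ N ∈ S.filter (P v), w N =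
      ∑ N ∈ S, w N * ((BB.filter (fun v => P v N)).card : ℝ) := by
  simp_rw [sum_filter]
  rw [sum_comm]
  refine sum_congr rfl fun N _ => ?_
  rw [← sum_filter, sum_const, nsmul_eq_mul, mul_comm]

/-- a prime beyond `√x` is rough -/
theorem main_rough {x a : ℝ} (hx : 1 ≤ x) (ha : a ≤ 1 / 20) {N y : ℕ} (hN : N ∈ Tx x)
    (hp : (N + y).Prime) : Rgh (x ^ a) (N + y) := by
  intro p hpp hpd
  have h1 : p = N + y := (Nat.prime_dvd_prime_iff_eq hpp hp).1 hpd
  have h2 : ⌊Real.sqrt x⌋₊ < N := by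
    unfold Tx at hN
    exact (mem_Ioc.1 hN).1
  have h3 : Real.sqrt x < N := Nat.lt_of_floor_lt h2
  have h4 : x ^ a ≤ Real.sqrt x := by
    rw [Real.sqrt_eq_rpow]
    exact Real.rpow_le_rpow_of_exponent_le hx (by linarith)
  rw [h1]
  push_cast
  have h5 : (0 : ℝ) ≤ y := Nat.cast_nonneg y
  linarith

/-- the pairs with one more rough site -/
theorem main_extra {ι : Type} [Fintype ι] [DecidableEq ι] (x a : ℝ) (L N : ℕ) (B : Finset (ι → ℕ))
    (hB : ∀ v ∈ B, v ∈ IJ ι L ∧ (∀ i, Rgh (x ^ a) (N + v i)) ∧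
      ∃ y ≤ L, (∀ i, v i ≠ y) ∧ Rgh (x ^ a) (N + y)) :
    B.card ≤ (RJ (Option ι) x a L N).card := by
  classical
  have hch : ∀ v : ι → ℕ, ∃ y : ℕ, v ∈ B → (y ≤ L ∧ (∀ i, v i ≠ y) ∧ Rgh (x ^ a) (N + y)) := by
    intro v
    by_cases hv : v ∈ B
    · obtain ⟨y, h1, h2, h3⟩ := (hB v hv).2.2
      exact ⟨y, fun _ => ⟨h1, h2, h3⟩⟩
    · exact ⟨0, fun h => absurd h hv⟩
  choose g hg using hch
  refine card_le_card_of_injOn (fun v => (fun o : Option ι => o.elim (g v) v)) ?_ ?_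
  · intro v hv
    have hv' : v ∈ B := hv
    obtain ⟨h1, h2, h3⟩ := hg v hv'
    obtain ⟨h4, h5, -⟩ := hB v hv'
    rw [mem_IJ] at h4
    have : (fun o : Option ι => o.elim (g v) v) ∈ RJ (Option ι) x a L N := by
      rw [mem_RJ]
      refine ⟨⟨?_, ?_⟩, ?_⟩
      · intro o
        cases o with
        | none => exact h1
        | some i => exact h4.1 i
      · intro o o' hoo
        cases o with
        | none =>
          cases o' with
          | none => rfl
          | some j => exact absurd hoo.symm (h2 j)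
        | some i =>
          cases o' with
          | none => exact absurd hoo (h2 i)
          | some j => exact congrArg some (h4.2 hoo)
      · intro o
        cases o with
        | none => exact h3
        | some i => exact h5 i
    exact this
  · intro v _ v' _ hvv
    funext i
    exact congrFun hvv (some i)

open Classical in
theorem main_B (hU : BlkU) (e : ℝ) (he : 0 < e) (he1 : e ≤ 1 / 100) (m k : ℕ) (hm : k + 1 ≤ m) :
    ∃ s : ℕ, 1 ≤ s ∧ ∀ A δ : ℝ, 0 < A → 0 < δ → ∃ c T lam : ℝ, 0 < c ∧ 1 ≤ T ∧ 0 < lam ∧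
      ∀ᶠ x : ℝ in atTop, ∀ L : ℕ, 1 ≤ L → (L : ℝ) ≤ Real.log x ^ A →
        ∀ cons : Prop, (cons → (L : ℝ) ≤ lam * Real.log x) →
        ∀ BB : Finset (Fin m × Fin s → ℕ), (∀ v ∈ BB, v ∈ IJ (Fin m × Fin s) L ∧ Admv v) →
          δ * (L : ℝ) ^ (m * s) ≤ BB.card →
        ∀ G : ℕ → Finset (Fin (k + 1) → ℕ),
          (∀ N ∈ Tx x, ∀ r ∈ G N, ∀ i, r i ≤ L ∧ (N + r i).Prime) →
          (∀ v ∈ BB, ∀ N ∈ Tx x, (13 / 50 - 2 * e) * m ≤ (pc v N : ℝ) →
            (cons → ∀ y ≤ L, (N + y).Prime → ∃ i, v i = y) →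
            ∃ i : Fin (k + 1) → Fin m × Fin s, Function.Injective i ∧ v ∘ i ∈ G N) →
          c * x * ((L : ℝ) / Real.log x) ^ (k + 1) *
              (min 1 ((L : ℝ) / Real.log x)) ^ (m * s - (k + 1)) ≤
            ∑ N ∈ (Tx x).filter (fun N : ℕ => (N : ℝ) ≤ T * x), ((G N).card : ℝ) := by
  obtain ⟨s, a, hs, ha, ha1, hob⟩ := one_box hU e he he1 m (by omega)
  refine ⟨s, hs, ?_⟩
  intro A δ hA hδ
  obtain ⟨c0, hc0, hob⟩ := hob A hA
  have : Nonempty (Fin m × Fin s) := ⟨(⟨0, by omega⟩, ⟨0, by omega⟩)⟩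
  have hcard : Fintype.card (Fin m × Fin s) = m * s := by
    rw [Fintype.card_prod, Fintype.card_fin, Fintype.card_fin]
  have hcardO : Fintype.card (Option (Fin m × Fin s)) = m * s + 1 := by
    rw [Fintype.card_option, hcard]
  obtain ⟨Ct, hCt, htail⟩ := tail (Fin m × Fin s) a ha
  obtain ⟨Co, hCo, htot⟩ := total (Option (Fin m × Fin s)) a ha
  rw [hcard] at htail
  rw [hcardO] at htot
  have hmK : m ≤ m * s := Nat.le_mul_of_pos_right m hs
  have hkK : k + 1 ≤ m * s := hm.trans hmK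
  obtain ⟨Cm, hCm, hmom⟩ := mom_pow (m * s) (2 * (m * s) - (k + 1)) (by omega) (by omega) a ha
  generalize hKdef : m * s = K at *
  have hcδ : 0 < c0 * δ := mul_pos hc0 hδ
  have hT1 : (1 : ℝ) ≤ max 1 (4 * Ct / (c0 * δ)) := le_max_left _ _
  have hT2 : 4 * Ct / (c0 * δ) ≤ max 1 (4 * Ct / (c0 * δ)) := le_max_right _ _
  generalize max 1 (4 * Ct / (c0 * δ)) = T at hT1 hT2
  have hT0 : 0 < T := by linarith
  have hK0 : (0 : ℝ) < (K : ℝ) ^ (k + 1) := by
    have : (0 : ℝ) < K := by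
      have : 0 < K := by omega
      exact_mod_cast this
    positivity
  have hc1 : 0 < c0 * δ / (2 * (K : ℝ) ^ (k + 1)) := by positivity
  have hC1 : 0 < Cm * T := by positivity
  refine ⟨(c0 * δ / (2 * (K : ℝ) ^ (k + 1))) ^ 2 / (2 * (Cm * T)), T, c0 * δ / (4 * Co),
    by positivity, hT1, by positivity, ?_⟩
  filter_upwards [hob, htail, htot, hmom, eventually_ge_atTop (4 : ℝ)] with x hob htail htot hmom hx4
  intro L hL hLA cons hcons BB hBB hBBc G hG1 hG2
  have hx0 : 0 < x := by linarith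
  have hlog : 0 < Real.log x := Real.log_pos (by linarith)
  have hL0 : (0 : ℝ) < L := by exact_mod_cast hL
  have hob := hob L hL hLA
  have htail := htail L hL T hT1
  have htot := htot L hL
  have hmom := hmom L hL
  set ρ : ℝ := (L : ℝ) / Real.log x with hρdef
  have hρ : 0 < ρ := div_pos hL0 hlog
  -- the three kinds of pairs
  set P1 : (Fin m × Fin s → ℕ) → ℕ → Prop := fun v N =>
    T * x < (N : ℝ) ∧ ∀ i, Rgh (x ^ a) (N + v i) with hP1
  set P2 : (Fin m × Fin s → ℕ) → ℕ → Prop := fun v N =>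
    cons ∧ (∀ i, Rgh (x ^ a) (N + v i)) ∧ ∃ y ≤ L, (∀ i, v i ≠ y) ∧ Rgh (x ^ a) (N + y) with hP2
  set P3 : (Fin m × Fin s → ℕ) → ℕ → Prop := fun v N =>
    (N : ℝ) ≤ T * x ∧ (∀ i, Rgh (x ^ a) (N + v i)) ∧ (13 / 50 - 2 * e) * m ≤ (pc v N : ℝ) ∧
      (cons → ∀ y ≤ L, Rgh (x ^ a) (N + y) → ∃ i, v i = y) with hP3
  have key : ∀ v ∈ BB, c0 * x / Real.log x ^ K ≤
      ∑ N ∈ (Tx x).filter (P1 v), gw x N + ∑ N ∈ (Tx x).filter (P2 v), gw x N +
        ∑ N ∈ (Tx x).filter (P3 v), gw x N := by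
    intro v hv
    refine (hob v (hBB v hv).1 (hBB v hv).2).trans ?_
    rw [sum_filter, sum_filter, sum_filter, sum_filter, ← sum_add_distrib, ← sum_add_distrib]
    refine sum_le_sum fun N _ => ?_
    have hg := (gw_pos x N).le
    by_cases hE : (∀ i, Rgh (x ^ a) (N + v i)) ∧ (13 / 50 - 2 * e) * m ≤ (pc v N : ℝ)
    · rw [if_pos hE]
      by_cases h1 : P1 v N
      · rw [if_pos h1]
        have : (0 : ℝ) ≤ if P2 v N then gw x N else 0 := by split_ifs <;> linarith
        have : (0 : ℝ) ≤ if P3 v N then gw x N else 0 := by split_ifs <;> linarith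
        linarith
      · by_cases h2 : P2 v N
        · rw [if_neg h1, if_pos h2]
          have : (0 : ℝ) ≤ if P3 v N then gw x N else 0 := by split_ifs <;> linarith
          linarith
        · have h3 : P3 v N := by
            refine ⟨?_, hE.1, hE.2, ?_⟩
            · by_contra hc
              exact h1 ⟨lt_of_not_ge hc, hE.1⟩
            · intro hc y hy hr
              by_contra hne
              push Not at hne
              exact h2 ⟨hc, hE.1, y, hy, hne, hr⟩
          rw [if_neg h1, if_neg h2, if_pos h3]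
          linarith
    · rw [if_neg hE]
      have : (0 : ℝ) ≤ if P1 v N then gw x N else 0 := by split_ifs <;> linarith
      have : (0 : ℝ) ≤ if P2 v N then gw x N else 0 := by split_ifs <;> linarith
      have : (0 : ℝ) ≤ if P3 v N then gw x N else 0 := by split_ifs <;> linarith
      linarith
  have hS0 : c0 * δ * x * ρ ^ K ≤ ∑ v ∈ BB, (∑ N ∈ (Tx x).filter (P1 v), gw x N +
      ∑ N ∈ (Tx x).filter (P2 v), gw x N + ∑ N ∈ (Tx x).filter (P3 v), gw x N) := by
    have h1 : ∑ v ∈ BB, c0 * x / Real.log x ^ K ≤ _ := sum_le_sum key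
    rw [sum_const, nsmul_eq_mul] at h1
    refine le_trans ?_ h1
    have h2 : 0 ≤ c0 * x / Real.log x ^ K := by positivity
    have h3 := mul_le_mul_of_nonneg_right hBBc h2
    refine le_trans (le_of_eq ?_) h3
    rw [hρdef, div_pow]
    field_simp
  rw [sum_add_distrib, sum_add_distrib, main_swap, main_swap, main_swap] at hS0
  -- far part
  have hF1 : ∑ N ∈ Tx x, gw x N * ((BB.filter (fun v => P1 v N)).card : ℝ) ≤
      c0 * δ / 4 * x * ρ ^ K := by
    have h1 : ∑ N ∈ Tx x, gw x N * ((BB.filter (fun v => P1 v N)).card : ℝ) ≤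
        ∑ N ∈ (Tx x).filter (fun N : ℕ => T * x < (N : ℝ)),
          gw x N * ((RJ (Fin m × Fin s) x a L N).card : ℝ) := by
      rw [sum_filter]
      refine sum_le_sum fun N _ => ?_
      by_cases hN : T * x < (N : ℝ)
      · rw [if_pos hN]
        refine mul_le_mul_of_nonneg_left ?_ (gw_pos x N).le
        have : (BB.filter (fun v => P1 v N)).card ≤ (RJ (Fin m × Fin s) x a L N).card := by
          refine card_le_card fun v hv => ?_
          rw [mem_filter] at hv
          rw [mem_RJ]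
          exact ⟨mem_IJ.1 (hBB v hv.1).1, hv.2.2⟩
        exact_mod_cast this
      · rw [if_neg hN]
        have : BB.filter (fun v => P1 v N) = ∅ := by
          rw [filter_eq_empty_iff]
          intro v _ hv
          exact hN hv.1
        rw [this, card_empty, Nat.cast_zero, mul_zero]
    refine h1.trans (htail.trans ?_)
    have h2 : Ct / T ≤ c0 * δ / 4 := by
      rw [div_le_iff₀ hcδ] at hT2
      rw [div_le_iff₀ hT0]
      linarith
    have h3 : 0 ≤ x * ρ ^ K := by positivity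
    have h4 := mul_le_mul_of_nonneg_right h2 h3
    linarith [h4]
  -- pairs with one more rough site
  have hF2 : ∑ N ∈ Tx x, gw x N * ((BB.filter (fun v => P2 v N)).card : ℝ) ≤
      c0 * δ / 4 * x * ρ ^ K := by
    by_cases hc : cons
    · have h1 : ∑ N ∈ Tx x, gw x N * ((BB.filter (fun v => P2 v N)).card : ℝ) ≤
          ∑ N ∈ Tx x, gw x N * ((RJ (Option (Fin m × Fin s)) x a L N).card : ℝ) := by
        refine sum_le_sum fun N _ => ?_
        refine mul_le_mul_of_nonneg_left ?_ (gw_pos x N).le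
        have := main_extra x a L N (BB.filter (fun v => P2 v N)) (by
          intro v hv
          rw [mem_filter] at hv
          exact ⟨(hBB v hv.1).1, hv.2.2.1, hv.2.2.2⟩)
        exact_mod_cast this
      refine h1.trans (htot.trans ?_)
      have h2 : ρ ≤ c0 * δ / (4 * Co) := by
        rw [hρdef, div_le_iff₀ hlog]
        exact hcons hc
      have h3 : Co * ρ ≤ c0 * δ / 4 := by
        rw [le_div_iff₀ (by positivity)] at h2
        linarith
      have h4 : 0 ≤ x * ρ ^ K := by positivity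
      have h5 := mul_le_mul_of_nonneg_right h3 h4
      rw [pow_succ]
      linarith [h5]
    · have h1 : ∀ N, BB.filter (fun v => P2 v N) = ∅ := by
        intro N
        rw [filter_eq_empty_iff]
        intro v _ hv
        exact hc hv.1
      have h2 : ∑ N ∈ Tx x, gw x N * ((BB.filter (fun v => P2 v N)).card : ℝ) = 0 := by
        refine sum_eq_zero fun N _ => ?_
        rw [h1 N, card_empty, Nat.cast_zero, mul_zero]
      rw [h2]
      positivity
  -- the main part
  set T0 : Finset ℕ := (Tx x).filter (fun N : ℕ => (N : ℝ) ≤ T * x ∧ K ≤ (RS x a L N).card) with hT0def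
  have hF3 : ∑ N ∈ Tx x, gw x N * ((BB.filter (fun v => P3 v N)).card : ℝ) ≤
      (K : ℝ) ^ (k + 1) * ∑ N ∈ T0, ((G N).card : ℝ) * ((RS x a L N).card : ℝ) ^ (K - (k + 1)) := by
    rw [mul_sum, hT0def, sum_filter]
    refine sum_le_sum fun N hN => ?_
    by_cases hNT : (N : ℝ) ≤ T * x ∧ K ≤ (RS x a L N).card
    · rw [if_pos hNT]
      have h1 := box_count k (RS x a L N) (BB.filter (fun v => P3 v N)) (G N) (by
        intro v hv
        rw [mem_filter] at hv
        obtain ⟨hv1, -, hv2, hv3, hv4⟩ := hv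
        refine ⟨fun i => ?_, ?_⟩
        · rw [mem_RS]
          exact ⟨(mem_IJ.1 (hBB v hv1).1).1 i, hv2 i⟩
        · refine hG2 v hv1 N hN hv3 ?_
          intro hc y hy hp
          exact hv4 hc y hy (main_rough (by linarith) ha1 hN hp))
      rw [hcard] at h1
      have h2 : ((BB.filter (fun v => P3 v N)).card : ℝ) ≤
          (K : ℝ) ^ (k + 1) * (((G N).card : ℝ) * ((RS x a L N).card : ℝ) ^ (K - (k + 1))) := by
        exact_mod_cast h1
      have h3 : gw x N * ((BB.filter (fun v => P3 v N)).card : ℝ) ≤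
          1 * ((BB.filter (fun v => P3 v N)).card : ℝ) :=
        mul_le_mul_of_nonneg_right (gw_le_one x N) (Nat.cast_nonneg _)
      linarith
    · rw [if_neg hNT]
      have : BB.filter (fun v => P3 v N) = ∅ := by
        rw [filter_eq_empty_iff]
        intro v hv hP
        refine hNT ⟨hP.1, ?_⟩
        have h1 : (univ.image v).card = K := by
          rw [card_image_of_injective _ (mem_IJ.1 (hBB v hv).1).2, card_univ, hcard]
        rw [← h1]
        refine card_le_card fun y hy => ?_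
        rw [mem_image] at hy
        obtain ⟨i, -, rfl⟩ := hy
        rw [mem_RS]
        exact ⟨(mem_IJ.1 (hBB v hv).1).1 i, hP.2.1 i⟩
      rw [this, card_empty, Nat.cast_zero, mul_zero]
  have hM : c0 * δ / (2 * (K : ℝ) ^ (k + 1)) * x * ρ ^ K ≤
      ∑ N ∈ T0, ((G N).card : ℝ) * ((RS x a L N).card : ℝ) ^ (K - (k + 1)) := by
    have h1 : c0 * δ / 2 * x * ρ ^ K ≤ (K : ℝ) ^ (k + 1) *
        ∑ N ∈ T0, ((G N).card : ℝ) * ((RS x a L N).card : ℝ) ^ (K - (k + 1)) := by
      linarith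
    have h2 : c0 * δ / (2 * (K : ℝ) ^ (k + 1)) * x * ρ ^ K =
        (c0 * δ / 2 * x * ρ ^ K) / (K : ℝ) ^ (k + 1) := by
      field_simp
    rw [h2, div_le_iff₀ hK0]
    linarith
  have hZm : ∑ N ∈ T0, ((RS x a L N).card : ℝ) ^ (2 * K - (k + 1)) ≤
      Cm * T * x * (ρ ^ K + ρ ^ (2 * K - (k + 1))) := by
    have hsq : Real.sqrt x ≤ (⌊T * x⌋₊ : ℝ) := by
      have h1 : Real.sqrt x ≤ x / 2 := by
        rw [Real.sqrt_le_left (by linarith)]
        nlinarith
      have h2 : T * x < (⌊T * x⌋₊ : ℝ) + 1 := Nat.lt_floor_add_one _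
      have h3 : x ≤ T * x := by nlinarith
      linarith
    have h1 := hmom ⌊T * x⌋₊ hsq
    have h2 : ∑ N ∈ T0, ((RS x a L N).card : ℝ) ^ (2 * K - (k + 1)) ≤
        ∑ N ∈ (Ioc 0 ⌊T * x⌋₊).filter (fun N => K ≤ (RS x a L N).card),
          ((RS x a L N).card : ℝ) ^ (2 * K - (k + 1)) := by
      refine sum_le_sum_of_subset_of_nonneg ?_ (fun N _ _ => by positivity)
      intro N hN
      rw [hT0def, mem_filter] at hN
      rw [mem_filter, mem_Ioc]
      have h3 : ⌊Real.sqrt x⌋₊ < N := by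
        have h4 := hN.1
        unfold Tx at h4
        exact (mem_Ioc.1 h4).1
      exact ⟨⟨by omega, Nat.le_floor hN.2.1⟩, hN.2.2⟩
    refine h2.trans (h1.trans ?_)
    have h4 : (⌊T * x⌋₊ : ℝ) ≤ T * x := Nat.floor_le (by positivity)
    have h5 : 0 ≤ Cm * (ρ ^ K + ρ ^ (2 * K - (k + 1))) := by positivity
    have h6 := mul_le_mul_of_nonneg_left h4 h5
    linarith
  have hfin := cs_fin K k hkK T0 (fun N => ((G N).card : ℝ)) (fun N => ((RS x a L N).card : ℝ))
    (fun N _ => Nat.cast_nonneg _) (fun N _ => Nat.cast_nonneg _) (by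
      intro N hN
      have hNT : N ∈ Tx x := by
        rw [hT0def, mem_filter] at hN
        exact hN.1
      have h1 : G N ⊆ Fintype.piFinset (fun _ : Fin (k + 1) => RS x a L N) := by
        intro r hr
        rw [Fintype.mem_piFinset]
        intro i
        rw [mem_RS]
        obtain ⟨h2, h3⟩ := hG1 N hNT r hr i
        exact ⟨h2, main_rough (by linarith) ha1 hNT h3⟩
      have h2 := card_le_card h1
      rw [Fintype.card_piFinset, prod_const, card_univ, Fintype.card_fin] at h2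
      exact_mod_cast h2) x ρ (c0 * δ / (2 * (K : ℝ) ^ (k + 1))) (Cm * T) hx0 hρ hc1 hC1 hM hZm
  refine hfin.trans ?_
  refine sum_le_sum_of_subset_of_nonneg ?_ (fun N _ _ => Nat.cast_nonneg _)
  intro N hN
  rw [hT0def, mem_filter] at hN
  rw [mem_filter]
  exact ⟨hN.1, hN.2.1⟩

end Pool.Agent.H61.UN
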