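import Pool.Agent.H61.UL.Def

/-!
# [H61 UN DEF] MP_8923e7_nt, THEOREM G, part B: definitions

`Rgh z n`: no prime factor `< z`; `gf`, `dd h` (product of all differences), `IJ ι L` (injective `ι → [0, L]`),
`RS x a L N` (rough sites), `RJ ι x a L N` (injective families of rough sites), `pc v N` (number of cells with a prime),
`Admv v` (admissible), `GC W v` (good classes).
-/

namespace Pool.Agent.H61.UN

open Finset Filter Pool.Agent.H21.MT Pool.Agent.H92.MM Pool.Agent.H61.UL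

/-- no prime factor `< z` -/
def Rgh (z : ℝ) (n : ℕ) : Prop := ∀ p : ℕ, p.Prime → p ∣ n → z ≤ (p : ℝ)

/-- `∏_{l ∣ n} (1 + 1/l)` -/
noncomputable def gf (n : ℕ) : ℝ := ∏ l ∈ n.primeFactors, (1 + 1 / (l : ℝ))

/-- product of all differences -/
def dd {ι : Type} [Fintype ι] [DecidableEq ι] (h : ι → ℕ) : ℕ :=
  ∏ q ∈ (univ : Finset (ι × ι)).filter (fun q => q.1 ≠ q.2), ((h q.1 : ℤ) - h q.2).natAbs

open Classical in
/-- injective functions to `[0, L]` -/
noncomputable def IJ (ι : Type) [Fintype ι] (L : ℕ) : Finset (ι → ℕ) :=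
  (Fintype.piFinset (fun _ : ι => range (L + 1))).filter Function.Injective

open Classical in
/-- rough sites `y ≤ L` -/
noncomputable def RS (x a : ℝ) (L N : ℕ) : Finset ℕ :=
  (range (L + 1)).filter (fun y => Rgh (x ^ a) (N + y))

open Classical in
/-- injective families of rough sites -/
noncomputable def RJ (ι : Type) [Fintype ι] (x a : ℝ) (L N : ℕ) : Finset (ι → ℕ) :=
  (IJ ι L).filter (fun h => ∀ i, Rgh (x ^ a) (N + h i))

/-- admissible -/
def Admv {ι : Type} (v : ι → ℕ) : Prop := ∀ p : ℕ, p.Prime → ∃ r : ℕ, ∀ i, ¬ p ∣ r + v i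

open Classical in
/-- number of cells containing a prime -/
noncomputable def pc {m s : ℕ} (v : Fin m × Fin s → ℕ) (N : ℕ) : ℕ :=
  (univ.filter (fun j : Fin m => ∃ l : Fin s, (N + v (j, l)).Prime)).card

open Classical in
/-- good classes -/
noncomputable def GC {ι : Type} (W : ℕ) (v : ι → ℕ) : Finset ℕ :=
  (range W).filter (fun b => ∀ i, Nat.Coprime (b + v i) W)

theorem mem_IJ {ι : Type} [Fintype ι] {L : ℕ} {h : ι → ℕ} :
    h ∈ IJ ι L ↔ (∀ i, h i ≤ L) ∧ Function.Injective h := by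
  classical
  unfold IJ
  rw [mem_filter, Fintype.mem_piFinset]
  simp only [mem_range, Nat.lt_succ_iff]

theorem mem_RS {x a : ℝ} {L N y : ℕ} : y ∈ RS x a L N ↔ y ≤ L ∧ Rgh (x ^ a) (N + y) := by
  classical
  unfold RS
  rw [mem_filter, mem_range, Nat.lt_succ_iff]

theorem mem_RJ {ι : Type} [Fintype ι] {x a : ℝ} {L N : ℕ} {h : ι → ℕ} :
    h ∈ RJ ι x a L N ↔ ((∀ i, h i ≤ L) ∧ Function.Injective h) ∧ ∀ i, Rgh (x ^ a) (N + h i) := by
  classical
  unfold RJ
  rw [mem_filter, mem_IJ]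

theorem mem_GC {ι : Type} {W b : ℕ} {v : ι → ℕ} :
    b ∈ GC W v ↔ b < W ∧ ∀ i, Nat.Coprime (b + v i) W := by
  classical
  unfold GC
  rw [mem_filter, mem_range]

theorem dd_ne {ι : Type} [Fintype ι] [DecidableEq ι] {h : ι → ℕ} (hh : Function.Injective h) :
    dd h ≠ 0 := by
  unfold dd
  rw [prod_ne_zero_iff]
  intro q hq h0
  rw [mem_filter] at hq
  rw [Int.natAbs_eq_zero, sub_eq_zero] at h0
  exact hq.2 (hh (by exact_mod_cast h0))

theorem dvd_dd {ι : Type} [Fintype ι] [DecidableEq ι] (h : ι → ℕ) {i j : ι} (hij : i ≠ j) :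
    ((h i : ℤ) - h j).natAbs ∣ dd h := by
  unfold dd
  exact dvd_prod_of_mem (fun q : ι × ι => ((h q.1 : ℤ) - h q.2).natAbs)
    (mem_filter.2 ⟨mem_univ (i, j), hij⟩)

/-- rough at a higher level is rough at a lower level -/
theorem Rgh.mono {z z' : ℝ} {n : ℕ} (h : Rgh z n) (hz : z' ≤ z) : Rgh z' n :=
  fun p hp hpn => hz.trans (h p hp hpn)

end Pool.Agent.H61.UN
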