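import Pool.Agent.H61.UN.Def

/-!
# [H61 UN CL] The number of good classes

PROOFS.
* `gc_mul`: `m, n ≥ 1` coprime: `b ↦ (b % m, b % n)` is a bijection from `GC (m n) v` to `GC m v × GC n v` (Chinese remainder:
  `Nat.chineseRemainder`, `Nat.Coprime.mul_right`, `Nat.coprime_mul_iff_right`; `Nat.Coprime (b + v i) m ↔ Nat.Coprime (b % m + v i) m` since
  the two numbers are congruent mod `m`: `Nat.ModEq.gcd_eq`).
* `gc_prime`: `p` prime, `v` admissible, `K = card ι`. The bad `b < p` are those with `p ∣ b + v i` for some `i`: for each `i` exactly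
  one `b < p`, so at most `K` of them; hence `p - K ≤ #GC` (natural subtraction allowed in ℝ: `(p : ℝ) - K ≤ #GC`). And `#GC ≥ 1`: the `r` of
  `Admv` reduced mod `p`. (`Nat.Coprime (b + v i) p ↔ ¬ p ∣ b + v i`.)
* `gc_count`: induction over the primes of the squarefree `W` (e.g. `Nat.recOnPrimeCoprime`, or strong induction: `W = 1`: `GC 1 v = {0}`; else
  `p ∣ W` prime, `W = p W'`, `W'` squarefree and coprime to `p`, `primeFactors` of the product = disjoint union).
-/

namespace Pool.Agent.H61.UN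

open Finset

private theorem cl_cop {ι : Type} (v : ι → ℕ) {a b m : ℕ} (h : a ≡ b [MOD m]) (i : ι)
    (hb : Nat.Coprime (b + v i) m) : Nat.Coprime (a + v i) m := by
  have h1 : a + v i ≡ b + v i [MOD m] := Nat.ModEq.add_right _ h
  unfold Nat.Coprime at hb ⊢
  rw [← hb]
  exact Nat.ModEq.gcd_eq h1

theorem gc_mul {ι : Type} [Fintype ι] (v : ι → ℕ) {m n : ℕ} (hm : 0 < m) (hn : 0 < n)
    (h : Nat.Coprime m n) : (GC (m * n) v).card = (GC m v).card * (GC n v).card := by
  rw [← card_product]
  refine card_nbij' (fun b => (b % m, b % n)) (fun q => (Nat.chineseRemainder h q.1 q.2 : ℕ)) ?_ ?_ ?_ ?_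
  · intro b hb
    rw [mem_coe, mem_GC] at hb
    rw [mem_coe, mem_product, mem_GC, mem_GC]
    refine ⟨⟨Nat.mod_lt _ hm, fun i => ?_⟩, ⟨Nat.mod_lt _ hn, fun i => ?_⟩⟩
    · exact cl_cop v (Nat.mod_modEq b m) i (Nat.Coprime.coprime_mul_right_right (hb.2 i))
    · exact cl_cop v (Nat.mod_modEq b n) i (Nat.Coprime.coprime_mul_left_right (hb.2 i))
  · intro q hq
    rw [mem_coe, mem_product, mem_GC, mem_GC] at hq
    rw [mem_coe, mem_GC]
    have h1 := (Nat.chineseRemainder h q.1 q.2).2
    refine ⟨Nat.chineseRemainder_lt_mul h q.1 q.2 hm.ne' hn.ne', fun i => ?_⟩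
    exact Nat.Coprime.mul_right (cl_cop v h1.1 i (hq.1.2 i)) (cl_cop v h1.2 i (hq.2.2 i))
  · intro b hb
    rw [mem_coe, mem_GC] at hb
    have h1 := (Nat.chineseRemainder h (b % m) (b % n)).2
    have h2 : (Nat.chineseRemainder h (b % m) (b % n) : ℕ) ≡ b [MOD m * n] := by
      rw [← Nat.modEq_and_modEq_iff_modEq_mul h]
      exact ⟨h1.1.trans (Nat.mod_modEq b m), h1.2.trans (Nat.mod_modEq b n)⟩
    exact Nat.ModEq.eq_of_lt_of_lt h2 (Nat.chineseRemainder_lt_mul h _ _ hm.ne' hn.ne') hb.1
  · intro q hq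
    rw [mem_coe, mem_product, mem_GC, mem_GC] at hq
    have h1 := (Nat.chineseRemainder h q.1 q.2).2
    refine Prod.ext ?_ ?_
    · change (Nat.chineseRemainder h q.1 q.2 : ℕ) % m = q.1
      exact Nat.ModEq.eq_of_lt_of_lt ((Nat.mod_modEq _ _).trans h1.1) (Nat.mod_lt _ hm) hq.1.1
    · change (Nat.chineseRemainder h q.1 q.2 : ℕ) % n = q.2
      exact Nat.ModEq.eq_of_lt_of_lt ((Nat.mod_modEq _ _).trans h1.2) (Nat.mod_lt _ hn) hq.2.1

theorem gc_prime {ι : Type} [Fintype ι] (v : ι → ℕ) (hv : Admv v) {p : ℕ} (hp : p.Prime) :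
    1 ≤ (GC p v).card ∧ (p : ℝ) - Fintype.card ι ≤ (GC p v).card := by
  classical
  constructor
  · obtain ⟨r, hr⟩ := hv p hp
    rw [Nat.one_le_iff_ne_zero, Ne, card_eq_zero, ← Ne, ← nonempty_iff_ne_empty]
    refine ⟨r % p, ?_⟩
    rw [mem_GC]
    refine ⟨Nat.mod_lt _ hp.pos, fun i => ?_⟩
    apply cl_cop v (Nat.mod_modEq r p) i
    rw [Nat.coprime_comm, hp.coprime_iff_not_dvd]
    exact hr i
  · have h1 : range p ⊆ GC p v ∪ univ.biUnion (fun i : ι => (range p).filter (fun b => p ∣ b + v i)) := by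
      intro b hb
      rw [mem_union, mem_GC, mem_biUnion]
      by_cases h : ∀ i, Nat.Coprime (b + v i) p
      · left
        exact ⟨mem_range.1 hb, h⟩
      · right
        push Not at h
        obtain ⟨i, hi⟩ := h
        refine ⟨i, mem_univ i, ?_⟩
        rw [mem_filter]
        refine ⟨hb, ?_⟩
        by_contra hc
        rw [← hp.coprime_iff_not_dvd, Nat.coprime_comm] at hc
        exact hi hc
    have h2 := (card_le_card h1).trans (card_union_le _ _)
    have h3 : (univ.biUnion (fun i : ι => (range p).filter (fun b => p ∣ b + v i))).card ≤ ∑ _i : ι, 1 := by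
      refine card_biUnion_le.trans (sum_le_sum fun i _ => ?_)
      rw [card_le_one]
      intro b hb c hc
      rw [mem_filter, mem_range] at hb hc
      have h4 : b + v i ≡ c + v i [MOD p] :=
        (Nat.modEq_zero_iff_dvd.2 hb.2).trans (Nat.modEq_zero_iff_dvd.2 hc.2).symm
      exact Nat.ModEq.eq_of_lt_of_lt (Nat.ModEq.add_right_cancel' _ h4) hb.1 hc.1
    rw [sum_const, card_univ, smul_eq_mul, mul_one] at h3
    rw [card_range] at h2
    have h4 : (p : ℝ) ≤ (GC p v).card + Fintype.card ι := by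
      exact_mod_cast h2.trans (Nat.add_le_add_left h3 _)
    linarith

theorem gc_count {ι : Type} [Fintype ι] (v : ι → ℕ) (hv : Admv v) (W : ℕ) (hW : Squarefree W) :
    ∏ p ∈ W.primeFactors, (if p ≤ Fintype.card ι then (1 : ℝ) else (p : ℝ) - Fintype.card ι) ≤
      ((GC W v).card : ℝ) := by
  induction W using Nat.strong_induction_on with
  | _ W ih =>
    rcases eq_or_ne W 0 with rfl | hW0
    · exact absurd hW not_squarefree_zero
    rcases eq_or_ne W 1 with rfl | hW1
    · rw [Nat.primeFactors_one, prod_empty]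
      have h1 : (0 : ℕ) ∈ GC 1 v := by
        rw [mem_GC]
        exact ⟨Nat.one_pos, fun i => Nat.coprime_one_right _⟩
      have h2 : 1 ≤ (GC 1 v).card := card_pos.2 ⟨0, h1⟩
      exact_mod_cast h2
    · have hp := Nat.minFac_prime hW1
      obtain ⟨W', hW'⟩ := Nat.minFac_dvd W
      obtain ⟨p, hpd⟩ : ∃ p, p = W.minFac := ⟨_, rfl⟩
      rw [← hpd] at hp hW'
      rw [hW', Nat.squarefree_mul_iff] at hW
      have hW'0 : 0 < W' := by
        rcases Nat.eq_zero_or_pos W' with h | h
        · rw [h, mul_zero] at hW'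
          exact absurd hW' hW0
        · exact h
      have hlt : W' < W := by
        rw [hW']
        exact lt_mul_of_one_lt_left hW'0 hp.one_lt
      have h1 := ih W' hlt hW.2.2
      obtain ⟨h2, h3⟩ := gc_prime v hv hp
      rw [hW', gc_mul v hp.pos hW'0 hW.1, Nat.Coprime.primeFactors_mul hW.1,
        prod_union (Nat.Coprime.disjoint_primeFactors hW.1), hp.primeFactors, prod_singleton]
      push_cast
      refine mul_le_mul ?_ h1 ?_ (Nat.cast_nonneg _)
      · split_ifs
        · exact_mod_cast h2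
        · exact h3
      · apply prod_nonneg
        intro q _
        split_ifs with h
        · exact zero_le_one
        · push Not at h
          have h4 : (Fintype.card ι : ℝ) ≤ q := by exact_mod_cast h.le
          linarith

end Pool.Agent.H61.UN
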