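import Pool.Agent.H61.UN.Def

/-!
# [H61 UN GF] The function `gf` and its moments (copied from H2/WE)
-/

namespace Pool.Agent.H61.UN

open Finset

theorem one_le_prod (s : Finset ℕ) : 1 ≤ ∏ l ∈ s, (1 + 1 / (l : ℝ)) := by
  refine Finset.prod_induction _ (fun t : ℝ => 1 ≤ t) (fun a b ha hb => ?_) le_rfl fun l _ => ?_
  · nlinarith
  · have : 0 ≤ 1 / (l : ℝ) := by positivity
    linarith

theorem gf_one_le (n : ℕ) : 1 ≤ gf n := one_le_prod _

theorem gf_mul_le (a b : ℕ) : gf (a * b) ≤ gf a * gf b := by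
  classical
  rcases Nat.eq_zero_or_pos a with rfl | ha
  · rw [zero_mul]
    have h0 : gf 0 = 1 := by simp [gf]
    rw [h0, one_mul]
    exact gf_one_le b
  rcases Nat.eq_zero_or_pos b with rfl | hb
  · rw [mul_zero]
    have h0 : gf 0 = 1 := by simp [gf]
    rw [h0, mul_one]
    exact gf_one_le a
  unfold gf
  rw [Nat.primeFactors_mul ha.ne' hb.ne', ← prod_union_inter]
  have h1 := one_le_prod (a.primeFactors ∩ b.primeFactors)
  have h2 : 0 ≤ ∏ l ∈ a.primeFactors ∪ b.primeFactors, (1 + 1 / (l : ℝ)) :=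
    zero_le_one.trans (one_le_prod _)
  exact le_mul_of_one_le_right h2 h1

theorem gf_prod_le {α : Type} (s : Finset α) (f : α → ℕ) : gf (∏ i ∈ s, f i) ≤ ∏ i ∈ s, gf (f i) := by
  classical
  induction s using Finset.induction_on with
  | empty => simp [gf]
  | insert i s hi ih =>
    rw [prod_insert hi, prod_insert hi]
    refine (gf_mul_le _ _).trans ?_
    exact mul_le_mul_of_nonneg_left ih (zero_le_one.trans (gf_one_le _))

private theorem bern (K : ℕ) (x : ℝ) (hx0 : 0 ≤ x) (hx1 : x ≤ 1) :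
    (1 + x) ^ K ≤ 1 + (2 ^ K - 1) * x := by
  induction K with
  | zero => simp
  | succ K ih =>
    have h1 : (1 : ℝ) ≤ 2 ^ K := one_le_pow₀ (by norm_num)
    have h2 : x * x ≤ x := by nlinarith
    calc (1 + x) ^ (K + 1) = (1 + x) ^ K * (1 + x) := pow_succ _ _
      _ ≤ (1 + (2 ^ K - 1) * x) * (1 + x) := mul_le_mul_of_nonneg_right ih (by linarith)
      _ = 1 + 2 ^ K * x + (2 ^ K - 1) * (x * x) := by ring
      _ ≤ 1 + 2 ^ K * x + (2 ^ K - 1) * x := by
          have := mul_le_mul_of_nonneg_left h2 (by linarith : (0 : ℝ) ≤ 2 ^ K - 1)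
          linarith
      _ = 1 + (2 ^ (K + 1) - 1) * x := by rw [pow_succ]; ring

private theorem gf_pow_le (K v : ℕ) :
    gf v ^ K ≤ ∏ l ∈ v.primeFactors, (1 + 2 ^ K / (l : ℝ)) := by
  unfold gf
  rw [← prod_pow]
  apply prod_le_prod
  · intro l _
    positivity
  · intro l hl
    have hl1 : (1 : ℝ) ≤ l := by
      exact_mod_cast (Nat.prime_of_mem_primeFactors hl).one_lt.le
    have h1 := bern K (1 / (l : ℝ)) (by positivity) (by rw [div_le_one (by linarith)]; exact hl1)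
    have h2 : (2 ^ K - 1) * (1 / (l : ℝ)) ≤ 2 ^ K / (l : ℝ) := by
      rw [mul_one_div]
      apply div_le_div_of_nonneg_right _ (by linarith)
      linarith
    linarith

private theorem inv_sq (V : ℕ) : ∑ p ∈ Icc 1 V, 1 / (p : ℝ) ^ 2 ≤ 2 := by
  have h : ∀ V : ℕ, 1 ≤ V → ∑ p ∈ Icc 1 V, 1 / (p : ℝ) ^ 2 ≤ 2 - 1 / (V : ℝ) := by
    intro V hV
    induction V, hV using Nat.le_induction with
    | base => norm_num
    | succ V hV ih =>
      rw [Finset.sum_Icc_succ_top (by omega)]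
      have hV1 : (1 : ℝ) ≤ V := by exact_mod_cast hV
      have h1 : 1 / ((V + 1 : ℕ) : ℝ) ^ 2 ≤ 1 / (V : ℝ) - 1 / ((V + 1 : ℕ) : ℝ) := by
        push_cast
        rw [div_sub_div _ _ (by positivity) (by positivity), div_le_div_iff₀ (by positivity)
          (by positivity)]
        nlinarith
      linarith
  rcases Nat.eq_zero_or_pos V with rfl | hV
  · simp
  · have h1 := h V hV
    have : 0 ≤ 1 / (V : ℝ) := by positivity
    linarith

/-- moments of `gf` -/
theorem gf_avg (K : ℕ) : ∃ C : ℝ, 0 < C ∧ ∀ V : ℕ, ∑ v ∈ Icc 1 V, gf v ^ K ≤ C * V := by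
  classical
  refine ⟨Real.exp (2 * 2 ^ K), Real.exp_pos _, ?_⟩
  intro V
  set Pr := (Icc 1 V).filter Nat.Prime with hPr
  have h1 : ∀ v ∈ Icc 1 V, gf v ^ K ≤
      ∑ t ∈ Pr.powerset, if t ⊆ v.primeFactors then ∏ l ∈ t, (2 ^ K / (l : ℝ)) else 0 := by
    intro v hv
    rw [mem_Icc] at hv
    refine (gf_pow_le K v).trans (le_of_eq ?_)
    rw [Finset.prod_one_add, ← sum_filter]
    apply sum_congr _ (fun _ _ => rfl)
    ext t
    rw [mem_powerset, mem_filter, mem_powerset]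
    constructor
    · intro ht
      refine ⟨fun l hl => ?_, ht⟩
      have h2 := ht hl
      have h3 := Nat.prime_of_mem_primeFactors h2
      rw [hPr, mem_filter, mem_Icc]
      exact ⟨⟨h3.one_lt.le, (Nat.le_of_dvd hv.1 (Nat.dvd_of_mem_primeFactors h2)).trans hv.2⟩, h3⟩
    · exact fun h => h.2
  have h2 : ∀ t ∈ Pr.powerset, ∑ v ∈ Icc 1 V,
      (if t ⊆ v.primeFactors then ∏ l ∈ t, (2 ^ K / (l : ℝ)) else 0) ≤
      V * ∏ l ∈ t, (2 ^ K / (l : ℝ) ^ 2) := by
    intro t ht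
    rw [mem_powerset] at ht
    rw [← sum_filter, sum_const, nsmul_eq_mul]
    have htp : ∀ l ∈ t, l.Prime := fun l hl => (mem_filter.1 (ht hl)).2
    have h0 : 0 < ∏ l ∈ t, l := prod_pos fun l hl => (htp l hl).pos
    have h3 : ((Icc 1 V).filter (fun v => t ⊆ v.primeFactors)).card ≤ V / ∏ l ∈ t, l := by
      have h4 : ((Ioc 0 V).filter (fun v => (∏ l ∈ t, l) ∣ v)).card = V / ∏ l ∈ t, l :=
        Nat.Ioc_filter_dvd_card_eq_div V _
      rw [← h4]
      apply card_le_card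
      intro v hv
      rw [mem_filter, mem_Icc] at hv
      rw [mem_filter, mem_Ioc]
      refine ⟨⟨by omega, hv.1.2⟩, ?_⟩
      exact (prod_dvd_prod_of_subset _ _ _ hv.2).trans (Nat.prod_primeFactors_dvd v)
    have h5 : (((Icc 1 V).filter (fun v => t ⊆ v.primeFactors)).card : ℝ) ≤
        V / ∏ l ∈ t, (l : ℝ) := by
      calc (((Icc 1 V).filter (fun v => t ⊆ v.primeFactors)).card : ℝ)
          ≤ ((V / ∏ l ∈ t, l : ℕ) : ℝ) := by exact_mod_cast h3
        _ ≤ (V : ℝ) / ((∏ l ∈ t, l : ℕ) : ℝ) := Nat.cast_div_le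
        _ = V / ∏ l ∈ t, (l : ℝ) := by rw [Nat.cast_prod]
    have h6 : 0 ≤ ∏ l ∈ t, (2 ^ K / (l : ℝ)) := prod_nonneg fun l _ => by positivity
    refine (mul_le_mul_of_nonneg_right h5 h6).trans (le_of_eq ?_)
    rw [div_mul_eq_mul_div, mul_div_assoc, ← prod_div_distrib]
    congr 1
    apply prod_congr rfl
    intro l _
    rw [div_div, sq]
  calc ∑ v ∈ Icc 1 V, gf v ^ K ≤ ∑ v ∈ Icc 1 V, ∑ t ∈ Pr.powerset,
        (if t ⊆ v.primeFactors then ∏ l ∈ t, (2 ^ K / (l : ℝ)) else 0) := sum_le_sum h1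
    _ = ∑ t ∈ Pr.powerset, ∑ v ∈ Icc 1 V,
        (if t ⊆ v.primeFactors then ∏ l ∈ t, (2 ^ K / (l : ℝ)) else 0) := sum_comm
    _ ≤ ∑ t ∈ Pr.powerset, (V : ℝ) * ∏ l ∈ t, (2 ^ K / (l : ℝ) ^ 2) := sum_le_sum h2
    _ = (V : ℝ) * ∏ l ∈ Pr, (1 + 2 ^ K / (l : ℝ) ^ 2) := by rw [← mul_sum, Finset.prod_one_add]
    _ ≤ (V : ℝ) * Real.exp (2 * 2 ^ K) := by
        apply mul_le_mul_of_nonneg_left _ (Nat.cast_nonneg _)
        calc ∏ p ∈ Pr, (1 + 2 ^ K / (p : ℝ) ^ 2)
            ≤ ∏ p ∈ Pr, Real.exp (2 ^ K / (p : ℝ) ^ 2) := by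
              apply prod_le_prod
              · intro p _
                positivity
              · intro p _
                rw [add_comm]
                exact Real.add_one_le_exp _
          _ = Real.exp (∑ p ∈ Pr, 2 ^ K / (p : ℝ) ^ 2) := by rw [Real.exp_sum]
          _ ≤ Real.exp (2 * 2 ^ K) := by
              apply Real.exp_le_exp.2
              calc ∑ p ∈ Pr, (2 : ℝ) ^ K / (p : ℝ) ^ 2
                  ≤ ∑ p ∈ Icc 1 V, (2 : ℝ) ^ K / (p : ℝ) ^ 2 :=
                    sum_le_sum_of_subset_of_nonneg (filter_subset _ _) fun p _ _ => by positivity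
                _ = 2 ^ K * ∑ p ∈ Icc 1 V, 1 / (p : ℝ) ^ 2 := by
                    rw [mul_sum]
                    apply sum_congr rfl
                    intro p _
                    ring
                _ ≤ 2 ^ K * 2 := mul_le_mul_of_nonneg_left (inv_sq V) (by positivity)
                _ = 2 * 2 ^ K := by ring
    _ = _ := by ring

end Pool.Agent.H61.UN
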