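import Pool.Agent.H61.UN.Gf

/-!
# [H61 UN MS] Mean of `gf (dd h)^M` over injective `h : ι → [0, L]`

PROOF. `n = card ι`, `R` = the number of pairs `q = (i, j)`, `i ≠ j`. `dd h = ∏_q |h i - h j|`, `gf (dd h) ≤ ∏_q gf |h i - h j|` (`gf_prod_le`).
A product of `R` real numbers `≥ 1` is at most `1 +` the sum of their `R`-th powers (it is at most the `R`-th power of the largest one; for
`R = 0` it is `1`; `Finset.prod_le_pow_card` with `Finset.exists_max_image`). So `gf (dd h)^M ≤ 1 + ∑_q gf(|h i - h j|)^(MR)`.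
Sum over `h ∈ IJ ι L`: the `1` gives `#IJ ≤ (L+1)^n ≤ (2L)^n`. For fixed `q = (i, j)`: `IJ ⊆ piFinset`; for each value of the
other coordinates (all except `i`) the differences `h i - h j ≠ 0` take each value of `[-L, L]` at most once, so the sum over `h i` is `≤ 2 ∑_{v ∈ Icc 1 L} gf(v)^(MR) ≤ 2 C L`
(`gf_avg`), and there are `≤ (L+1)^(n-1)` choices of the other coordinates. Formally: group by the map `h ↦ Function.update h i 0` (image in
`{h ∈ piFinset | h i = 0}`, of cardinality `(L+1)^(n-1)`), and inside a group the map `h ↦ (h i : ℤ) - h j` is injective.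
Total `≤ (2L)^n (1 + 2 R C)`.
-/

namespace Pool.Agent.H61.UN

open Finset

private theorem ms_prod {α : Type} (s : Finset α) (y : α → ℝ) (hy : ∀ i ∈ s, 1 ≤ y i) :
    ∏ i ∈ s, y i ≤ 1 + ∑ i ∈ s, (y i) ^ s.card := by
  rcases s.eq_empty_or_nonempty with rfl | hne
  · simp
  · obtain ⟨i0, hi0, hmax⟩ := exists_max_image s y hne
    have h1 : ∏ i ∈ s, y i ≤ ∏ _i ∈ s, y i0 :=
      prod_le_prod (fun i hi => zero_le_one.trans (hy i hi)) (fun i hi => hmax i hi)
    rw [prod_const] at h1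
    have h2 : (y i0) ^ s.card ≤ ∑ i ∈ s, (y i) ^ s.card :=
      single_le_sum (f := fun i => (y i) ^ s.card)
        (fun i hi => pow_nonneg (zero_le_one.trans (hy i hi)) _) hi0
    linarith

private theorem ms_pair (K : ℕ) (C : ℝ) (hC : ∀ V : ℕ, ∑ v ∈ Icc 1 V, gf v ^ K ≤ C * V) (L b : ℕ) (hb : b ≤ L) :
    ∑ a ∈ range (L + 1), (if a = b then (0 : ℝ) else gf ((a : ℤ) - b).natAbs ^ K) ≤ 2 * (C * L) := by
  have h0 : ∀ v : ℕ, (0 : ℝ) ≤ gf v ^ K := fun v => pow_nonneg (zero_le_one.trans (gf_one_le v)) _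
  have h1 : ∀ a ∈ range (L + 1), (if a = b then (0 : ℝ) else gf ((a : ℤ) - b).natAbs ^ K) =
      (if a < b then gf (b - a) ^ K else 0) + (if b < a then gf (a - b) ^ K else 0) := by
    intro a _
    rcases lt_trichotomy a b with h | h | h
    · rw [if_neg (by omega), if_pos h, if_neg (by omega), add_zero]
      congr 2
      omega
    · rw [if_pos h, if_neg (by omega), if_neg (by omega), add_zero]
    · rw [if_neg (by omega), if_neg (by omega), if_pos h, zero_add]
      congr 2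
      omega
  rw [sum_congr rfl h1, sum_add_distrib, ← sum_filter, ← sum_filter]
  have h2 : ∑ a ∈ (range (L + 1)).filter (fun a => a < b), gf (b - a) ^ K ≤ ∑ v ∈ Icc 1 L, gf v ^ K := by
    have h3 : Set.InjOn (fun a : ℕ => b - a) ((range (L + 1)).filter (fun a => a < b) : Finset ℕ) := by
      intro x hx y hy hxy
      rw [mem_coe, mem_filter] at hx hy
      have h4 : b - x = b - y := hxy
      omega
    have h4 := sum_image (f := fun v : ℕ => gf v ^ K) h3
    rw [← h4]
    apply sum_le_sum_of_subset_of_nonneg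
    · intro v hv
      rw [mem_image] at hv
      obtain ⟨a, ha, rfl⟩ := hv
      rw [mem_filter] at ha
      rw [mem_Icc]
      omega
    · exact fun v _ _ => h0 v
  have h3 : ∑ a ∈ (range (L + 1)).filter (fun a => b < a), gf (a - b) ^ K ≤ ∑ v ∈ Icc 1 L, gf v ^ K := by
    have h3 : Set.InjOn (fun a : ℕ => a - b) ((range (L + 1)).filter (fun a => b < a) : Finset ℕ) := by
      intro x hx y hy hxy
      rw [mem_coe, mem_filter] at hx hy
      have h4 : x - b = y - b := hxy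
      omega
    have h4 := sum_image (f := fun v : ℕ => gf v ^ K) h3
    rw [← h4]
    apply sum_le_sum_of_subset_of_nonneg
    · intro v hv
      rw [mem_image] at hv
      obtain ⟨a, ha, rfl⟩ := hv
      rw [mem_filter, mem_range] at ha
      rw [mem_Icc]
      omega
    · exact fun v _ _ => h0 v
  have h4 := hC L
  linarith

private theorem ms_one (ι : Type) [Fintype ι] [DecidableEq ι] (K : ℕ) (C : ℝ) (hC0 : 0 ≤ C)
    (hC : ∀ V : ℕ, ∑ v ∈ Icc 1 V, gf v ^ K ≤ C * V) (i j : ι) (hij : i ≠ j) (L : ℕ) (hL : 1 ≤ L) :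
    ∑ h ∈ IJ ι L, gf ((h i : ℤ) - h j).natAbs ^ K ≤ 2 ^ Fintype.card ι * C * (L : ℝ) ^ Fintype.card ι := by
  have h0 : ∀ v : ℕ, (0 : ℝ) ≤ gf v ^ K := fun v => pow_nonneg (zero_le_one.trans (gf_one_le v)) _
  obtain ⟨F, hF⟩ : ∃ F : ℕ × ({k : ι // k ≠ i} → ℕ) → ℝ, F = fun p =>
      if p.1 = p.2 ⟨j, hij.symm⟩ then 0 else gf ((p.1 : ℤ) - p.2 ⟨j, hij.symm⟩).natAbs ^ K := ⟨_, rfl⟩
  have h1 : ∑ h ∈ IJ ι L, gf ((h i : ℤ) - h j).natAbs ^ K =
      ∑ p ∈ (IJ ι L).map (Equiv.funSplitAt i ℕ).toEmbedding, F p := by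
    rw [sum_map]
    refine sum_congr rfl fun h hh => ?_
    rw [mem_IJ] at hh
    rw [hF]
    change _ = (if h i = h j then (0 : ℝ) else gf ((h i : ℤ) - h j).natAbs ^ K)
    rw [if_neg (fun hc => hij (hh.2 hc))]
  have h2 : ∑ p ∈ (IJ ι L).map (Equiv.funSplitAt i ℕ).toEmbedding, F p ≤
      ∑ p ∈ range (L + 1) ×ˢ Fintype.piFinset (fun _ : {k : ι // k ≠ i} => range (L + 1)), F p := by
    apply sum_le_sum_of_subset_of_nonneg
    · intro p hp
      rw [mem_map] at hp
      obtain ⟨h, hh, rfl⟩ := hp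
      rw [mem_IJ] at hh
      rw [mem_product, Fintype.mem_piFinset, mem_range]
      refine ⟨Nat.lt_succ_of_le (hh.1 i), fun k => ?_⟩
      rw [mem_range]
      exact Nat.lt_succ_of_le (hh.1 k)
    · intro p _ _
      rw [hF]
      change (0 : ℝ) ≤ if _ then _ else _
      split_ifs
      · exact le_rfl
      · exact h0 _
  have h3 : ∑ p ∈ range (L + 1) ×ˢ Fintype.piFinset (fun _ : {k : ι // k ≠ i} => range (L + 1)), F p ≤
      ∑ _g ∈ Fintype.piFinset (fun _ : {k : ι // k ≠ i} => range (L + 1)), 2 * (C * L) := by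
    rw [sum_product_right]
    refine sum_le_sum fun g hg => ?_
    rw [Fintype.mem_piFinset] at hg
    have h4 := hg ⟨j, hij.symm⟩
    rw [mem_range] at h4
    rw [hF]
    exact ms_pair K C hC L (g ⟨j, hij.symm⟩) (by omega)
  have hcard : Fintype.card {k : ι // k ≠ i} + 1 = Fintype.card ι := by
    have h4 := Fintype.card_subtype_compl (fun k : ι => k = i)
    have h5 : Fintype.card {k : ι // k = i} = 1 := Fintype.card_subtype_eq i
    have h6 : 0 < Fintype.card ι := Fintype.card_pos_iff.2 ⟨i⟩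
    have h7 : Fintype.card {k : ι // k ≠ i} = Fintype.card {k : ι // ¬ k = i} := rfl
    omega
  rw [sum_const, nsmul_eq_mul, Fintype.card_piFinset] at h3
  simp only [card_range, prod_const, card_univ] at h3
  rw [h1]
  refine (h2.trans h3).trans ?_
  have hLR : (1 : ℝ) ≤ L := by exact_mod_cast hL
  have h5 : (((L + 1) ^ Fintype.card {k : ι // k ≠ i} : ℕ) : ℝ) ≤ (2 * (L : ℝ)) ^ Fintype.card {k : ι // k ≠ i} := by
    push_cast
    exact pow_le_pow_left₀ (by positivity) (by linarith) _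
  refine (mul_le_mul_of_nonneg_right h5 (by positivity)).trans (le_of_eq ?_)
  rw [← hcard, mul_pow, pow_succ, pow_succ]
  ring

theorem mean_gf (ι : Type) [Fintype ι] [DecidableEq ι] (M : ℕ) : ∃ C : ℝ, 0 < C ∧ ∀ L : ℕ, 1 ≤ L →
    ∑ h ∈ IJ ι L, gf (dd h) ^ M ≤ C * (L : ℝ) ^ Fintype.card ι := by
  classical
  obtain ⟨P, hP⟩ : ∃ P : Finset (ι × ι), P = (univ : Finset (ι × ι)).filter (fun q => q.1 ≠ q.2) := ⟨_, rfl⟩
  obtain ⟨C, hC0, hC⟩ := gf_avg (M * P.card)
  refine ⟨2 ^ Fintype.card ι + P.card * (2 ^ Fintype.card ι * C), by positivity, ?_⟩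
  intro L hL
  have hLR : (1 : ℝ) ≤ L := by exact_mod_cast hL
  have h1 : ∀ h ∈ IJ ι L, gf (dd h) ^ M ≤ 1 + ∑ q ∈ P, gf ((h q.1 : ℤ) - h q.2).natAbs ^ (M * P.card) := by
    intro h _
    have h2 : gf (dd h) ≤ ∏ q ∈ P, gf ((h q.1 : ℤ) - h q.2).natAbs := by
      unfold dd
      rw [← hP]
      exact gf_prod_le _ _
    have h3 : gf (dd h) ^ M ≤ (∏ q ∈ P, gf ((h q.1 : ℤ) - h q.2).natAbs) ^ M :=
      pow_le_pow_left₀ (zero_le_one.trans (gf_one_le _)) h2 M
    rw [← prod_pow] at h3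
    have h4 := ms_prod P (fun q => gf ((h q.1 : ℤ) - h q.2).natAbs ^ M)
      (fun q _ => one_le_pow₀ (gf_one_le _))
    simp only [← pow_mul] at h4
    exact h3.trans h4
  refine (sum_le_sum h1).trans ?_
  rw [sum_add_distrib, sum_const, nsmul_eq_mul, mul_one, sum_comm]
  have h2 : ((IJ ι L).card : ℝ) ≤ 2 ^ Fintype.card ι * (L : ℝ) ^ Fintype.card ι := by
    have h3 : (IJ ι L).card ≤ (L + 1) ^ Fintype.card ι := by
      have h4 : (IJ ι L).card ≤ (Fintype.piFinset (fun _ : ι => range (L + 1))).card := by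
        apply card_le_card
        intro h hh
        rw [mem_IJ] at hh
        rw [Fintype.mem_piFinset]
        intro k
        rw [mem_range]
        exact Nat.lt_succ_of_le (hh.1 k)
      rw [Fintype.card_piFinset] at h4
      simpa only [card_range, prod_const, card_univ] using h4
    have h4 : ((IJ ι L).card : ℝ) ≤ (((L + 1) ^ Fintype.card ι : ℕ) : ℝ) := by exact_mod_cast h3
    refine h4.trans ?_
    rw [← mul_pow]
    push_cast
    exact pow_le_pow_left₀ (by positivity) (by linarith) _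
  have h3 : ∑ q ∈ P, ∑ h ∈ IJ ι L, gf ((h q.1 : ℤ) - h q.2).natAbs ^ (M * P.card) ≤
      ∑ _q ∈ P, 2 ^ Fintype.card ι * C * (L : ℝ) ^ Fintype.card ι := by
    refine sum_le_sum fun q hq => ?_
    rw [hP, mem_filter] at hq
    exact ms_one ι (M * P.card) C hC0.le hC q.1 q.2 hq.2 L hL
  rw [sum_const, nsmul_eq_mul] at h3
  have h4 := add_le_add h2 h3
  refine h4.trans (le_of_eq ?_)
  ring

end Pool.Agent.H61.UN
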