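import Pool.Agent.H61.UN.Rc
import Pool.Agent.H61.UN.Ms

/-!
# [H61 UN MO] The factorial moments of the number of rough sites

PROOF. `mom_fac`: `∑_{N ∈ Ioc 0 Y} #RJ = ∑_{h ∈ IJ ι L} #{N ∈ Ioc 0 Y : all N + h i rough}` (double counting, `RJ = (IJ).filter`;
`Finset.sum_card_bipartiteAbove_eq_sum_card_bipartiteBelow` or `card_filter`, `sum_comm`), apply `rough_count` and `mean_gf` (with
`M = 2 card ι`): `≤ C Y/(log x)^n C' L^n`.
-/

namespace Pool.Agent.H61.UN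

open Finset Filter

theorem mom_fac (ι : Type) [Fintype ι] [DecidableEq ι] [Nonempty ι] (a : ℝ) (ha : 0 < a) :
    ∃ C : ℝ, 0 < C ∧ ∀ᶠ x : ℝ in atTop, ∀ L : ℕ, 1 ≤ L → ∀ Y : ℕ, Real.sqrt x ≤ (Y : ℝ) →
      ∑ N ∈ Ioc 0 Y, ((RJ ι x a L N).card : ℝ) ≤ C * Y * ((L : ℝ) / Real.log x) ^ Fintype.card ι := by
  classical
  obtain ⟨C1, hC1, h1⟩ := rough_count ι a ha
  obtain ⟨C2, hC2, h2⟩ := mean_gf ι (2 * Fintype.card ι)
  refine ⟨C1 * C2, mul_pos hC1 hC2, ?_⟩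
  filter_upwards [h1, eventually_gt_atTop (1 : ℝ)] with x hx hx1 L hL Y hY
  have hlog : 0 < Real.log x := Real.log_pos hx1
  have e1 : ∑ N ∈ Ioc 0 Y, ((RJ ι x a L N).card : ℝ) =
      ∑ h ∈ IJ ι L, (((Ioc 0 Y).filter (fun N => ∀ i, Rgh (x ^ a) (N + h i))).card : ℝ) := by
    have e2 : ∀ N ∈ Ioc 0 Y, ((RJ ι x a L N).card : ℝ) =
        ∑ h ∈ IJ ι L, if (∀ i, Rgh (x ^ a) (N + h i)) then (1 : ℝ) else 0 := by
      intro N _
      unfold RJ
      rw [sum_boole]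
    rw [sum_congr rfl e2, sum_comm]
    refine sum_congr rfl (fun h _ => ?_)
    rw [sum_boole]
  rw [e1]
  calc ∑ h ∈ IJ ι L, (((Ioc 0 Y).filter (fun N => ∀ i, Rgh (x ^ a) (N + h i))).card : ℝ)
      ≤ ∑ h ∈ IJ ι L, C1 * Y * gf (dd h) ^ (2 * Fintype.card ι) / Real.log x ^ Fintype.card ι := by
        refine sum_le_sum (fun h hh => ?_)
        have := hx h (mem_IJ.1 hh).2 Y hY
        convert this using 3
    _ = C1 * Y / Real.log x ^ Fintype.card ι *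
          ∑ h ∈ IJ ι L, gf (dd h) ^ (2 * Fintype.card ι) := by
        rw [mul_sum]
        refine sum_congr rfl (fun h _ => ?_)
        ring
    _ ≤ C1 * Y / Real.log x ^ Fintype.card ι * (C2 * (L : ℝ) ^ Fintype.card ι) := by
        refine mul_le_mul_of_nonneg_left (h2 L hL) ?_
        positivity
    _ = C1 * C2 * Y * ((L : ℝ) / Real.log x) ^ Fintype.card ι := by
        rw [div_pow]
        ring

end Pool.Agent.H61.UN
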