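import Pool.Agent.H61.UN.Cl
import Pool.Agent.H61.UN.Mt
import Pool.Agent.H95.L1.Win

/-!
# [H61 UN NB] The normalising factors summed over the good classes

`nm x a W K = mass x/W · ∏_{p < ⌈x^a⌉, p prime, ¬ p ∣ W} (1 - K/p)` (`H92/MM/Def`), `K = card ι ≥ 1`, `K ≤ w`, `a ≤ 1`.

PROOFS.
* `nmu_pos`: `mass x ≥ x/8 > 0` for large `x` (`Pool.Agent.H95.L1.mass_ge`), `W > 0` and `1 - K/p > 0` for the primes `p ∤ W` (`primorial w ∣ W` so
  `p > w ≥ K`: `Nat.Prime.dvd_primorial_iff`).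
* `nm_sum`: `∑_{b ∈ GC W v} nm = #GC · mass x/W · ∏_{p ∤ W} (1 - K/p)`. `W = ∏_{p ∈ W.primeFactors} p` (`Nat.prod_primeFactors_of_squarefree`), so by `gc_count`
  `#GC/W ≥ ∏_{p ∈ W.primeFactors} (if p ≤ K then 1/p else 1 - K/p)`. For large `x`: `(log x)^A < x^a`, so all primes of `W` are `< x^a`. The
  primes `p ≤ K` all divide `W` (`K ≤ w`) and contribute `∏ 1/p ≥ K^(-K)` (at most `K` of them, each `≥ 1/K`). The primes `p > K` dividing `W` and the primes
  `p ∤ W`, `p < x^a`, are disjoint and all in `PI K (x^a)`, and all factors `1 - K/p` are in `[0,1]`, so the product of their `1 - K/p` is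
  `≥ ∏_{p ∈ PI K (x^a)} (1 - K/p) ≥ c/(log x^a)^K ≥ c/(log x)^K` (`prod_lb`, `log (x^a) = a log x ≤ log x`, `x^a ≥ 3`). With `mass x ≥ x/8`:
  constant `c K^(-K)/8`, independent of `w`, `A`, `W`, `v`.
-/

namespace Pool.Agent.H61.UN

open Finset Filter Pool.Agent.H92.MM

private theorem fac_bd {K p : ℕ} (h : K < p) : 0 < 1 - (K : ℝ) / p ∧ 1 - (K : ℝ) / p ≤ 1 := by
  have hp : (0 : ℝ) < p := by exact_mod_cast (Nat.zero_le K).trans_lt h
  have h1 : (K : ℝ) / p < 1 := by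
    rw [div_lt_one hp]
    exact_mod_cast h
  have h2 : 0 ≤ (K : ℝ) / p := by positivity
  constructor <;> linarith

private theorem lt_of_not_dvd {K w W p : ℕ} (hw : K ≤ w) (hW : primorial w ∣ W) (hp : p.Prime)
    (h : ¬ p ∣ W) : K < p := by
  by_contra hc
  apply h
  refine dvd_trans ?_ hW
  exact (Nat.Prime.dvd_primorial_iff hp).2 (by omega)

theorem nmu_pos (K w : ℕ) (hw : K ≤ w) (a : ℝ) : ∀ᶠ x : ℝ in atTop, ∀ W : ℕ, 0 < W → primorial w ∣ W →
    0 < nm x a W K := by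
  filter_upwards [Pool.Agent.H95.L1.mass_ge, eventually_gt_atTop (0 : ℝ)] with x hx hx0
  intro W hW0 hW
  have hm : 0 < mass x := by linarith
  have hWr : (0 : ℝ) < W := by exact_mod_cast hW0
  unfold nm
  apply mul_pos (div_pos hm hWr)
  apply prod_pos
  intro p hp
  rw [mem_filter] at hp
  exact (fac_bd (lt_of_not_dvd hw hW hp.2.1 hp.2.2)).1

theorem nm_sum (ι : Type) [Fintype ι] [DecidableEq ι] [Nonempty ι] (a : ℝ) (ha : 0 < a) (ha1 : a ≤ 1) :
    ∃ c : ℝ, 0 < c ∧ ∀ (A : ℝ) (w : ℕ), Fintype.card ι ≤ w → ∀ᶠ x : ℝ in atTop, ∀ W : ℕ, Squarefree W →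
      primorial w ∣ W → (W : ℝ) ≤ Real.log x ^ A → ∀ v : ι → ℕ, Admv v →
        c * x / Real.log x ^ Fintype.card ι ≤ ∑ _b ∈ GC W v, nm x a W (Fintype.card ι) := by
  classical
  obtain ⟨K, hK⟩ : ∃ K, K = Fintype.card ι := ⟨_, rfl⟩
  have hK1 : 1 ≤ K := by rw [hK]; exact Fintype.card_pos
  have hKr : (1 : ℝ) ≤ K := by exact_mod_cast hK1
  rw [← hK]
  obtain ⟨c1, hc1, hlb⟩ := prod_lb K
  obtain ⟨kk, hkk⟩ : ∃ kk : ℝ, kk = (1 / (K : ℝ)) ^ K := ⟨_, rfl⟩
  have hkk0 : 0 < kk := by rw [hkk]; positivity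
  refine ⟨c1 * kk / 8, by positivity, ?_⟩
  intro A w hw
  have hpow : Tendsto (fun x : ℝ => x ^ a) atTop atTop := tendsto_rpow_atTop ha
  have hlog := Real.tendsto_log_atTop
  have hsm : ∀ᶠ x : ℝ in atTop, Real.log x ^ A < x ^ a := by
    have h1 := (isLittleO_log_rpow_rpow_atTop A ha).bound (show (0 : ℝ) < 1 / 2 by norm_num)
    filter_upwards [h1, eventually_gt_atTop (1 : ℝ)] with x hx hx1
    have hx0 : 0 < x ^ a := Real.rpow_pos_of_pos (by linarith) _
    have hl : 0 < Real.log x := Real.log_pos hx1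
    rw [Real.norm_of_nonneg (Real.rpow_nonneg hl.le _), Real.norm_of_nonneg hx0.le] at hx
    linarith
  filter_upwards [Pool.Agent.H95.L1.mass_ge, eventually_gt_atTop (1 : ℝ),
    hpow.eventually_ge_atTop 3, hlog.eventually_ge_atTop 1, hsm] with x hxm hx1 hx3 hxl hxs
  intro W hWsq hWp hWA v hv
  have hx0 : 0 < x := by linarith
  have hW0 : 0 < W := Nat.pos_of_ne_zero hWsq.ne_zero
  have hWr : (0 : ℝ) < W := by exact_mod_cast hW0
  have hm : 0 < mass x := by linarith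
  -- the count of classes
  have hcnt := gc_count v hv W hWsq
  rw [← hK] at hcnt
  obtain ⟨P2, hP2⟩ : ∃ P2 : Finset ℕ,
    P2 = (range ⌈x ^ a⌉₊).filter (fun p => p.Prime ∧ ¬ p ∣ W) := ⟨_, rfl⟩
  obtain ⟨P1, hP1⟩ : ∃ P1 : Finset ℕ, P1 = W.primeFactors.filter (fun p => ¬ p ≤ K) := ⟨_, rfl⟩
  have hWprod : (W : ℝ) = ∏ p ∈ W.primeFactors, (p : ℝ) := by
    have h1 := Nat.prod_primeFactors_of_squarefree hWsq
    rw [← Nat.cast_prod, h1]
  have hpos : ∀ p ∈ W.primeFactors, (0 : ℝ) < p := fun p hp => by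
    exact_mod_cast (Nat.prime_of_mem_primeFactors hp).pos
  -- the ratio
  have hrat : kk * ∏ p ∈ P1, (1 - (K : ℝ) / p) ≤ ((GC W v).card : ℝ) / W := by
    have h1 : (∏ p ∈ W.primeFactors, (if p ≤ K then (1 : ℝ) else (p : ℝ) - K)) / W =
        ∏ p ∈ W.primeFactors, (if p ≤ K then 1 / (p : ℝ) else 1 - (K : ℝ) / p) := by
      rw [hWprod, ← prod_div_distrib]
      apply prod_congr rfl
      intro p hp
      split_ifs with h
      · rfl
      · rw [sub_div, div_self (hpos p hp).ne']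
    have h2 : ∏ p ∈ W.primeFactors, (if p ≤ K then 1 / (p : ℝ) else 1 - (K : ℝ) / p) =
        (∏ p ∈ W.primeFactors.filter (fun p => p ≤ K), 1 / (p : ℝ)) *
          ∏ p ∈ P1, (1 - (K : ℝ) / p) := by
      rw [prod_ite, hP1]
    have h3 : kk ≤ ∏ p ∈ W.primeFactors.filter (fun p => p ≤ K), 1 / (p : ℝ) := by
      have h4 : (W.primeFactors.filter (fun p => p ≤ K)).card ≤ K := by
        have h5 : W.primeFactors.filter (fun p => p ≤ K) ⊆ Icc 1 K := by
          intro p hp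
          rw [mem_filter] at hp
          rw [mem_Icc]
          exact ⟨(Nat.prime_of_mem_primeFactors hp.1).pos, hp.2⟩
        have h6 := card_le_card h5
        rwa [Nat.card_Icc, Nat.add_sub_cancel] at h6
      have h7 : (1 / (K : ℝ)) ^ (W.primeFactors.filter (fun p => p ≤ K)).card ≤
          ∏ p ∈ W.primeFactors.filter (fun p => p ≤ K), 1 / (p : ℝ) := by
        rw [← prod_const]
        apply Finset.prod_le_prod
        · intro p _
          positivity
        · intro p hp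
          rw [mem_filter] at hp
          apply one_div_le_one_div_of_le (hpos p hp.1)
          exact_mod_cast hp.2
      refine le_trans ?_ h7
      rw [hkk]
      apply pow_le_pow_of_le_one (by positivity) _ h4
      rw [div_le_one (by linarith)]
      exact hKr
    have h8 : 0 ≤ ∏ p ∈ P1, (1 - (K : ℝ) / p) := by
      apply prod_nonneg
      intro p hp
      rw [hP1, mem_filter] at hp
      exact (fac_bd (by omega : K < p)).1.le
    calc kk * ∏ p ∈ P1, (1 - (K : ℝ) / p)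
        ≤ (∏ p ∈ W.primeFactors.filter (fun p => p ≤ K), 1 / (p : ℝ)) *
          ∏ p ∈ P1, (1 - (K : ℝ) / p) := mul_le_mul_of_nonneg_right h3 h8
      _ = (∏ p ∈ W.primeFactors, (if p ≤ K then (1 : ℝ) else (p : ℝ) - K)) / W := by
          rw [h1, h2]
      _ ≤ ((GC W v).card : ℝ) / W := div_le_div_of_nonneg_right hcnt hWr.le
  -- the union
  have hdisj : Disjoint P1 P2 := by
    rw [disjoint_left]
    intro p hp hp'
    rw [hP1, mem_filter] at hp
    rw [hP2, mem_filter] at hp'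
    exact hp'.2.2 (Nat.dvd_of_mem_primeFactors hp.1)
  have hsub : P1 ∪ P2 ⊆ Pool.Agent.H75.AP.PI (K : ℝ) (x ^ a) := by
    intro p hp
    rw [mem_union] at hp
    unfold Pool.Agent.H75.AP.PI
    rw [mem_filter, mem_range]
    rcases hp with hp | hp
    · rw [hP1, mem_filter] at hp
      have h1 := Nat.prime_of_mem_primeFactors hp.1
      have h2 : (p : ℝ) ≤ x ^ a := by
        have h3 : p ≤ W := Nat.le_of_dvd hW0 (Nat.dvd_of_mem_primeFactors hp.1)
        have h4 : (p : ℝ) ≤ W := by exact_mod_cast h3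
        linarith
      refine ⟨?_, h1, by exact_mod_cast (by omega : K < p)⟩
      have := Nat.le_floor h2
      omega
    · rw [hP2, mem_filter, mem_range] at hp
      have h1 := lt_of_not_dvd hw hWp hp.2.1 hp.2.2
      have h2 : (p : ℝ) < x ^ a := Nat.lt_ceil.1 hp.1
      refine ⟨?_, hp.2.1, by exact_mod_cast h1⟩
      have := Nat.le_floor h2.le
      omega
  have hPI : ∏ p ∈ Pool.Agent.H75.AP.PI (K : ℝ) (x ^ a), (1 - (K : ℝ) / p) ≤
      (∏ p ∈ P1, (1 - (K : ℝ) / p)) * ∏ p ∈ P2, (1 - (K : ℝ) / p) := by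
    rw [← prod_union hdisj]
    have hfb : ∀ p ∈ Pool.Agent.H75.AP.PI (K : ℝ) (x ^ a),
        0 < 1 - (K : ℝ) / p ∧ 1 - (K : ℝ) / p ≤ 1 := by
      intro p hp
      unfold Pool.Agent.H75.AP.PI at hp
      rw [mem_filter] at hp
      exact fac_bd (by exact_mod_cast hp.2.2)
    rw [← prod_sdiff hsub]
    have h1 : ∏ p ∈ Pool.Agent.H75.AP.PI (K : ℝ) (x ^ a) \ (P1 ∪ P2), (1 - (K : ℝ) / p) ≤ 1 := by
      apply prod_le_one
      · intro p hp
        exact (hfb p (mem_sdiff.1 hp).1).1.le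
      · intro p hp
        exact (hfb p (mem_sdiff.1 hp).1).2
    have h2 : 0 ≤ ∏ p ∈ P1 ∪ P2, (1 - (K : ℝ) / p) :=
      prod_nonneg fun p hp => (hfb p (hsub hp)).1.le
    calc _ ≤ 1 * ∏ p ∈ P1 ∪ P2, (1 - (K : ℝ) / p) := mul_le_mul_of_nonneg_right h1 h2
      _ = _ := one_mul _
  have hlow := hlb (x ^ a) hx3
  have hloga : Real.log (x ^ a) = a * Real.log x := Real.log_rpow hx0 a
  have hla : 0 < Real.log (x ^ a) := Real.log_pos (by linarith)
  have hlow2 : c1 / Real.log x ^ K ≤ c1 / Real.log (x ^ a) ^ K := by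
    apply div_le_div_of_nonneg_left hc1.le (pow_pos hla _)
    apply pow_le_pow_left₀ hla.le
    rw [hloga]
    nlinarith
  have hP20 : 0 ≤ ∏ p ∈ P2, (1 - (K : ℝ) / p) := by
    apply prod_nonneg
    intro p hp
    rw [hP2, mem_filter] at hp
    exact (fac_bd (lt_of_not_dvd hw hWp hp.2.1 hp.2.2)).1.le
  rw [sum_const, nsmul_eq_mul]
  unfold nm
  rw [← hP2]
  have e1 : ((GC W v).card : ℝ) * (mass x / W * ∏ p ∈ P2, (1 - (K : ℝ) / p)) =
      mass x * (((GC W v).card : ℝ) / W * ∏ p ∈ P2, (1 - (K : ℝ) / p)) := by ring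
  rw [e1]
  have e2 : c1 * kk / 8 * x / Real.log x ^ K = x / 8 * (kk * (c1 / Real.log x ^ K)) := by ring
  rw [e2]
  have hlp : 0 < Real.log x ^ K := pow_pos (by linarith) _
  apply mul_le_mul hxm _ (by positivity) hm.le
  calc kk * (c1 / Real.log x ^ K) ≤ kk * ((∏ p ∈ P1, (1 - (K : ℝ) / p)) *
        ∏ p ∈ P2, (1 - (K : ℝ) / p)) :=
        mul_le_mul_of_nonneg_left ((hlow2.trans hlow).trans hPI) hkk0.le
    _ = (kk * ∏ p ∈ P1, (1 - (K : ℝ) / p)) * ∏ p ∈ P2, (1 - (K : ℝ) / p) := by ring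
    _ ≤ _ := mul_le_mul_of_nonneg_right hrat hP20

end Pool.Agent.H61.UN
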