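import Pool.Agent.H61.UN.Gf
import Pool.Agent.H61.UN.Mt
import Pool.Agent.H95.L1.Sum
import Pool.Agent.H95.L1.Dis

/-!
# [H61 UN RC] Upper bound for the number of `N ≤ Y` with all `N + h i` rough

PROOF. `J = card ι ≥ 1`, `w0` from `Pool.Agent.H95.FL.sandwich J`, `B = 10 J`, `η = 1/4`, `a' = min (a/2) (1/(4(6B+12)))` (so `a' ≤ 1`,
`a' (6B+12) ≤ 1/4`, `a' < a`). `x` large (`≥ x0` of `sandwich`, `x^a' ≥ 3`, `(log x)^J ≤ x^(1/4)`, `log (x^a') = a' log x`).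
`P` = primes `p ∈ PI w0 (x^a')` with `¬ p ∣ dd h`. For `p ∈ P`, `i ≠ j`: `¬ (p : ℤ) ∣ h i - h j` (`dvd_dd`, `Int.natCast_dvd`). If all
`N + h i` are rough then `DP h P N = ∅` (`p ∣ N + h i` gives `x^a ≤ p ≤ x^a'`, contradiction). Take `fl, fu` from `sandwich` for
`g p = J/p` (`0 ≤ g p ≤ 2 J/p`): `Sand J g P (x^(1/4)) ((1/2)^B) fl fu`. `Pool.Agent.H95.L1.sm_sum` with `T0 = Ioc 0 Y`, `ω = 1`, `X = Y`,
`E = 1` (`ud_Ioc 0 Y`), `W = 1`, `b = 0`, `L = 0` (no monomials; `T` and `A` are functions on `Fin 0`, `GA ≤ #Fam ≤ #All = 1`, all terms `≤ 1`, the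
inner products are `1`): the number of `N ∈ Ioc 0 Y` with `DP h P N = ∅` is `≤ 2 Y vv(J/p, P) + x^(1/4)`.
`vv = ∏_{p ∈ P} (1 - J/p)`. Let `Q = PI w0 (x^a')`. For `p ∈ Q` (`p > w0 ≥ 200 J`): `1 ≤ (1 - J/p)(1 + 1/p)^(2J)` (Bernoulli `(1+1/p)^(2J) ≥
1 + 2J/p`, `(1 - J/p)(1 + 2J/p) = 1 + J/p - 2J²/p² ≥ 1`). `Q \ P` = the `p ∈ Q` with `p ∣ dd h`, a subset of `(dd h).primeFactors` (`dd_ne`). So
`∏_P (1 - J/p) ≤ ∏_P (1 - J/p) ∏_{Q \ P} (1 - J/p)(1+1/p)^(2J) = ∏_Q (1 - J/p) ∏_{Q \ P} (1+1/p)^(2J) ≤ C1/(log x^a')^J gf(dd h)^(2J)` (`prod_ub J w0`).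
Finally `x^(1/4) ≤ √x/(log x)^J ≤ Y/(log x)^J` and `gf ≥ 1`. `C = 2 C1/a'^J + 1`.
-/

namespace Pool.Agent.H61.UN

open Finset Filter Pool.Agent.H95.FL Pool.Agent.H95.L1

/-- the elementary inequality at one prime -/
private theorem rc_fac {J w0 p : ℕ} (hJ : 1 ≤ J) (hw : 200 * J ≤ w0) (hp : w0 < p) :
    0 ≤ 1 - (J : ℝ) / p ∧ 1 ≤ (1 - (J : ℝ) / p) * (1 + 1 / (p : ℝ)) ^ (2 * J) := by
  have hJr : (1 : ℝ) ≤ J := by exact_mod_cast hJ
  have hpr : 200 * (J : ℝ) ≤ p := by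
    have h1 : 200 * J ≤ p := by omega
    exact_mod_cast h1
  have hp0 : (0 : ℝ) < p := by linarith
  obtain ⟨t, ht⟩ : ∃ t : ℝ, t = (J : ℝ) / p := ⟨_, rfl⟩
  have ht0 : 0 ≤ t := by rw [ht]; positivity
  have ht1 : t ≤ 1 / 200 := by
    rw [ht, div_le_div_iff₀ hp0 (by norm_num)]
    linarith
  have hb : 1 + 2 * t ≤ (1 + 1 / (p : ℝ)) ^ (2 * J) := by
    have h1 := one_add_mul_le_pow (a := 1 / (p : ℝ)) (by
      have : 0 ≤ 1 / (p : ℝ) := by positivity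
      linarith) (2 * J)
    refine le_trans (le_of_eq ?_) h1
    rw [ht]
    push_cast
    ring
  rw [← ht]
  refine ⟨by linarith, ?_⟩
  calc (1 : ℝ) ≤ (1 - t) * (1 + 2 * t) := by nlinarith
    _ ≤ (1 - t) * (1 + 1 / (p : ℝ)) ^ (2 * J) := mul_le_mul_of_nonneg_left hb (by linarith)

open Classical in
theorem rough_count (ι : Type) [Fintype ι] [DecidableEq ι] [Nonempty ι] (a : ℝ) (ha : 0 < a) :
    ∃ C : ℝ, 0 < C ∧ ∀ᶠ x : ℝ in atTop, ∀ h : ι → ℕ, Function.Injective h → ∀ Y : ℕ,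
      Real.sqrt x ≤ (Y : ℝ) →
      (((Ioc 0 Y).filter (fun N => ∀ i, Rgh (x ^ a) (N + h i))).card : ℝ) ≤
        C * Y * gf (dd h) ^ (2 * Fintype.card ι) / Real.log x ^ Fintype.card ι := by
  obtain ⟨J, hJ⟩ : ∃ J, J = Fintype.card ι := ⟨_, rfl⟩
  have hJ1 : 1 ≤ J := by rw [hJ]; exact Fintype.card_pos
  rw [← hJ]
  obtain ⟨w0, hw0, hs⟩ := sandwich J hJ1
  obtain ⟨a', ha'⟩ : ∃ a' : ℝ, a' = min (a / 2) (1 / (4 * (6 * (10 * J : ℕ) + 12))) := ⟨_, rfl⟩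
  have hpos : (0 : ℝ) < 4 * (6 * ((10 * J : ℕ) : ℝ) + 12) := by positivity
  have ha'0 : 0 < a' := by
    rw [ha']
    exact lt_min (by positivity) (by positivity)
  have ha'a : a' < a := by
    have : a' ≤ a / 2 := by rw [ha']; exact min_le_left _ _
    linarith
  have ha'2 : a' ≤ 1 / (4 * (6 * ((10 * J : ℕ) : ℝ) + 12)) := by rw [ha']; exact min_le_right _ _
  have ha'η : a' * (6 * ((10 * J : ℕ) : ℝ) + 12) ≤ 1 / 4 := by
    rw [le_div_iff₀ hpos] at ha'2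
    linarith
  have ha'1 : a' ≤ 1 := by
    refine ha'2.trans ?_
    rw [div_le_one hpos]
    have : (0 : ℝ) ≤ ((10 * J : ℕ) : ℝ) := Nat.cast_nonneg _
    linarith
  obtain ⟨x0, hx0, hsand⟩ := hs (10 * J) (1 / 4) a' le_rfl ha'0 ha'1 ha'η
  obtain ⟨C1, hC1, hub⟩ := prod_ub J w0 (by omega)
  refine ⟨2 * C1 / a' ^ J + 1, by positivity, ?_⟩
  have hpow : Tendsto (fun x : ℝ => x ^ a') atTop atTop := tendsto_rpow_atTop ha'0
  have hsm : ∀ᶠ x : ℝ in atTop, Real.log x ^ J ≤ x ^ (1 / 4 : ℝ) := by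
    have h1 := (isLittleO_log_rpow_rpow_atTop (J : ℝ) (show (0 : ℝ) < 1 / 4 by norm_num)).bound
      (show (0 : ℝ) < 1 by norm_num)
    filter_upwards [h1, eventually_gt_atTop (1 : ℝ)] with x hx hx1
    have hx0 : 0 < x ^ (1 / 4 : ℝ) := Real.rpow_pos_of_pos (by linarith) _
    have hl : 0 < Real.log x := Real.log_pos hx1
    rw [Real.norm_of_nonneg (Real.rpow_nonneg hl.le _), Real.norm_of_nonneg hx0.le, one_mul,
      Real.rpow_natCast] at hx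
    exact hx
  filter_upwards [eventually_ge_atTop x0, eventually_gt_atTop (1 : ℝ), hpow.eventually_ge_atTop 3,
    hsm] with x hxx0 hx1 hx3 hxl
  intro h hinj Y hY
  have hxp : 0 < x := by linarith
  have hlp : 0 < Real.log x := Real.log_pos hx1
  obtain ⟨Q, hQ⟩ : ∃ Q : Finset ℕ, Q = Pool.Agent.H75.AP.PI (w0 : ℝ) (x ^ a') := ⟨_, rfl⟩
  have hQm : ∀ p ∈ Q, p.Prime ∧ w0 < p ∧ (p : ℝ) ≤ x ^ a' := by
    intro p hp
    rw [hQ] at hp
    unfold Pool.Agent.H75.AP.PI at hp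
    rw [mem_filter, mem_range] at hp
    refine ⟨hp.2.1, by exact_mod_cast hp.2.2, ?_⟩
    exact (Nat.le_floor_iff (by positivity)).1 (by omega)
  obtain ⟨P, hP⟩ : ∃ P : Finset ℕ, P = Q.filter (fun p => ¬ p ∣ dd h) := ⟨_, rfl⟩
  have hPQ : P ⊆ Q := by rw [hP]; exact filter_subset _ _
  have hPm : ∀ p ∈ P, p.Prime ∧ w0 < p ∧ (p : ℝ) ≤ x ^ a' := fun p hp => hQm p (hPQ hp)
  have hPd : ∀ p ∈ P, ∀ i j, i ≠ j → ¬ (p : ℤ) ∣ (h i : ℤ) - h j := by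
    intro p hp i j hij hdv
    rw [hP, mem_filter] at hp
    apply hp.2
    exact (Int.natCast_dvd.1 hdv).trans (dvd_dd h hij)
  obtain ⟨fl, fu, hS⟩ := hsand x hxx0 P hPm
  have hS' := hS (fun p => (J : ℝ) / p) (by
    intro p _
    refine ⟨by positivity, ?_⟩
    apply div_le_div_of_nonneg_right _ (Nat.cast_nonneg _)
    have : (0 : ℝ) ≤ J := Nat.cast_nonneg _
    linarith)
  have hsum := sm_sum (ud_Ioc 0 Y (Nat.zero_le _)) (fun _ _ => zero_le_one) (by simp) h 1 0 P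
    one_pos (fun p hp => ⟨(hPm p hp).1, (hPm p hp).1.not_dvd_one⟩) hPd (x ^ (1 / 4 : ℝ))
    ((1 / 2 : ℝ) ^ (10 * J)) fl fu (by rw [← hJ]; exact hS') (fun _ : Fin 0 => (∅ : Finset ℕ)) (fun _ _ => 0)
    (fun i => i.elim0) (fun i => i.elim0) (fun i => i.elim0) (by positivity)
  rw [← hJ] at hsum
  have hGA0 := GA_nonneg (fun _ : Fin 0 => (∅ : Finset ℕ)) (fun (_ : ι) _ => 0)
  have hGA1 : GA (fun _ : Fin 0 => (∅ : Finset ℕ)) (fun (_ : ι) _ => 0) ≤ 1 := by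
    refine (GA_le _ _).trans (le_of_eq ?_)
    simp
  have hAll : ((All (fun _ : Fin 0 => (∅ : Finset ℕ)) (fun (_ : ι) _ => 0)).card : ℝ) = 1 := by
    unfold All
    simp
  obtain ⟨V, hV⟩ : ∃ V : ℝ, V = vv (fun p => (J : ℝ) / p) P := ⟨_, rfl⟩
  have hVe : V = ∏ p ∈ P, (1 - (J : ℝ) / p) := hV
  have hV0 : 0 ≤ V := by
    rw [hVe]
    exact prod_nonneg fun p hp => (rc_fac hJ1 hw0 (hPm p hp).2.1).1
  rw [← hV, hAll] at hsum
  -- the count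
  have hcount : (((Ioc 0 Y).filter (fun N => ∀ i, Rgh (x ^ a) (N + h i))).card : ℝ) ≤
      2 * Y * V + x ^ (1 / 4 : ℝ) := by
    have h1 : (Ioc 0 Y).filter (fun N => ∀ i, Rgh (x ^ a) (N + h i)) ⊆
        (Ioc 0 Y).filter (fun N => N % 1 = 0 % 1 ∧ DP h P N = ∅) := by
      intro N hN
      rw [mem_filter] at hN ⊢
      refine ⟨hN.1, by omega, ?_⟩
      rw [Finset.eq_empty_iff_forall_notMem]
      intro p hp
      obtain ⟨hpP, i, hpi⟩ := (mem_DP h P N p).1 hp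
      have h2 := hN.2 i p (hPm p hpP).1 hpi
      have h3 := (hPm p hpP).2.2
      have h4 : x ^ a' < x ^ a := Real.rpow_lt_rpow_of_exponent_lt hx1 ha'a
      linarith
    have h2 : (((Ioc 0 Y).filter (fun N => ∀ i, Rgh (x ^ a) (N + h i))).card : ℝ) ≤
        (((Ioc 0 Y).filter (fun N => N % 1 = 0 % 1 ∧ DP h P N = ∅)).card : ℝ) := by
      exact_mod_cast card_le_card h1
    refine h2.trans ?_
    have h3 := (abs_le.1 hsum).2
    have h4 : ∑ N ∈ (Ioc 0 Y).filter (fun N => N % 1 = 0 % 1 ∧ DP h P N = ∅),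
        (1 : ℝ) * ∏ j : ι, ∏ i : Fin 0,
          (((((fun _ : Fin 0 => (∅ : Finset ℕ)) i).filter (· ∣ N + h j)).card.choose
            ((fun (_ : ι) (_ : Fin 0) => 0) j i) : ℕ) : ℝ) =
        (((Ioc 0 Y).filter (fun N => N % 1 = 0 % 1 ∧ DP h P N = ∅)).card : ℝ) := by
      rw [card_eq_sum_ones, Nat.cast_sum]
      apply sum_congr rfl
      intro N _
      simp
    have h5 : ((Y : ℝ) - ((0 : ℕ) : ℝ)) / ((1 : ℕ) : ℝ) = Y := by
      push_cast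
      ring
    rw [h5] at h3
    have h6 : (1 / 2 : ℝ) ^ (10 * J) ≤ 1 := pow_le_one₀ (by norm_num) (by norm_num)
    have hYV : 0 ≤ (Y : ℝ) * V := by positivity
    have h7 : (Y : ℝ) * V * GA (fun _ : Fin 0 => (∅ : Finset ℕ)) (fun (_ : ι) _ => 0) ≤ Y * V := by
      calc _ ≤ (Y : ℝ) * V * 1 := mul_le_mul_of_nonneg_left hGA1 hYV
        _ = _ := mul_one _
    have h8 : (1 / 2 : ℝ) ^ (10 * J) * (Y * V) *
        GA (fun _ : Fin 0 => (∅ : Finset ℕ)) (fun (_ : ι) _ => 0) ≤ Y * V := by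
      calc (1 / 2 : ℝ) ^ (10 * J) * (Y * V) *
          GA (fun _ : Fin 0 => (∅ : Finset ℕ)) (fun (_ : ι) _ => 0)
          ≤ 1 * (Y * V) * 1 := by
            apply mul_le_mul (mul_le_mul_of_nonneg_right h6 hYV) hGA1 hGA0 (by positivity)
        _ = _ := by ring
    rw [← h4]
    linarith
  -- the Euler product
  have hVb : V ≤ C1 / (a' ^ J * Real.log x ^ J) * gf (dd h) ^ (2 * J) := by
    obtain ⟨R, hR⟩ : ∃ R : Finset ℕ, R = Q.filter (fun p => p ∣ dd h) := ⟨_, rfl⟩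
    have h1 : ∏ p ∈ Q, (1 - (J : ℝ) / p) = (∏ p ∈ R, (1 - (J : ℝ) / p)) *
        ∏ p ∈ P, (1 - (J : ℝ) / p) := by
      rw [hR, hP, prod_filter_mul_prod_filter_not]
    have h2 : 1 ≤ ∏ p ∈ R, ((1 - (J : ℝ) / p) * (1 + 1 / (p : ℝ)) ^ (2 * J)) := by
      refine Finset.prod_induction _ (fun t : ℝ => 1 ≤ t) (fun a b ha hb => ?_) le_rfl fun p hp => ?_
      · nlinarith
      · rw [hR, mem_filter] at hp
        exact (rc_fac hJ1 hw0 (hQm p hp.1).2.1).2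
    have h3 : ∏ p ∈ R, (1 + 1 / (p : ℝ)) ^ (2 * J) ≤ gf (dd h) ^ (2 * J) := by
      rw [prod_pow]
      apply pow_le_pow_left₀
      · exact prod_nonneg fun p _ => by positivity
      · unfold gf
        apply Finset.prod_le_prod_of_subset_of_one_le
        · intro p hp
          rw [hR, mem_filter] at hp
          exact Nat.mem_primeFactors.2 ⟨(hQm p hp.1).1, hp.2, dd_ne hinj⟩
        · intro p _
          positivity
        · intro p _ _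
          have : 0 ≤ 1 / (p : ℝ) := by positivity
          linarith
    have h4 := hub (x ^ a') hx3
    rw [← hQ, Real.log_rpow hxp, mul_pow] at h4
    have hQ0 : 0 ≤ ∏ p ∈ Q, (1 - (J : ℝ) / p) :=
      prod_nonneg fun p hp => (rc_fac hJ1 hw0 (hQm p hp).2.1).1
    rw [hVe]
    calc ∏ p ∈ P, (1 - (J : ℝ) / p) ≤ (∏ p ∈ P, (1 - (J : ℝ) / p)) *
          ∏ p ∈ R, ((1 - (J : ℝ) / p) * (1 + 1 / (p : ℝ)) ^ (2 * J)) :=
          le_mul_of_one_le_right (by rw [← hVe]; exact hV0) h2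
      _ = (∏ p ∈ Q, (1 - (J : ℝ) / p)) * ∏ p ∈ R, (1 + 1 / (p : ℝ)) ^ (2 * J) := by
          rw [h1, prod_mul_distrib]
          ring
      _ ≤ C1 / (a' ^ J * Real.log x ^ J) * gf (dd h) ^ (2 * J) :=
          mul_le_mul h4 h3 (prod_nonneg fun p _ => by positivity) (by positivity)
  -- the error term
  have hgf : 1 ≤ gf (dd h) ^ (2 * J) := one_le_pow₀ (gf_one_le _)
  have hlJ : 0 < Real.log x ^ J := pow_pos hlp _
  have herr : x ^ (1 / 4 : ℝ) ≤ Y * gf (dd h) ^ (2 * J) / Real.log x ^ J := by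
    rw [le_div_iff₀ hlJ]
    have h1 : Real.sqrt x = x ^ (1 / 4 : ℝ) * x ^ (1 / 4 : ℝ) := by
      rw [← Real.rpow_add hxp, Real.sqrt_eq_rpow]
      norm_num
    calc x ^ (1 / 4 : ℝ) * Real.log x ^ J ≤ x ^ (1 / 4 : ℝ) * x ^ (1 / 4 : ℝ) :=
          mul_le_mul_of_nonneg_left hxl (by positivity)
      _ = Real.sqrt x := h1.symm
      _ ≤ Y := hY
      _ ≤ Y * gf (dd h) ^ (2 * J) := le_mul_of_one_le_right (Nat.cast_nonneg _) hgf
  have h2YV : 2 * (Y : ℝ) * V ≤ 2 * Y * (C1 / (a' ^ J * Real.log x ^ J) * gf (dd h) ^ (2 * J)) :=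
    mul_le_mul_of_nonneg_left hVb (by positivity)
  calc (((Ioc 0 Y).filter (fun N => ∀ i, Rgh (x ^ a) (N + h i))).card : ℝ)
      ≤ 2 * Y * V + x ^ (1 / 4 : ℝ) := hcount
    _ ≤ 2 * Y * (C1 / (a' ^ J * Real.log x ^ J) * gf (dd h) ^ (2 * J)) +
        Y * gf (dd h) ^ (2 * J) / Real.log x ^ J := add_le_add h2YV herr
    _ = (2 * C1 / a' ^ J + 1) * Y * gf (dd h) ^ (2 * J) / Real.log x ^ J := by
        have : a' ^ J ≠ 0 := (pow_pos ha'0 _).ne'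
        field_simp

end Pool.Agent.H61.UN
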