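import Pool.Agent.H61.UN.Mo

/-!
# [H61 UN ZC] Power moments of the number `Z N = #RS` of rough sites

PROOFS.
* `card_RJ`: `RJ ι x a L N` is in bijection with the embeddings of `ι` into `RS x a L N`: `#RJ = Z.descFactorial (card ι)`
  (`Fintype.card_embedding_eq`: `‖ι ↪ β‖ = ‖β‖.descFactorial ‖ι‖`, with `β = {y // y ∈ RS x a L N}`; `Finset.card_bij`).
* `pow_le`: `K ≤ m`, `K ≤ Z`: if `Z ≤ m`: `Z^m ≤ m^m ≤ m^m Z.descFactorial K` (`descFactorial_pos`-type: `K ≤ Z` gives `1 ≤`). If `Z > m`: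
  every factor of `Z.descFactorial m = ∏_{i<m} (Z - i)` is `≥ Z - m + 1 ≥ Z/m` (`m (Z - m + 1) - Z = (m-1)(Z - m) ≥ 0`; `m ≥ 1` here), so
  `Z^m ≤ m^m Z.descFactorial m` (`Nat.pow_sub_le_descFactorial : (n + 1 - k)^k ≤ n.descFactorial k`). `m = 0` trivial.
* `mom_pow`: with `mom_fac (Fin K)` and `mom_fac (Fin m)` (`1 ≤ K ≤ m`), `C = m^m (C1 + C2)`; `card (Fin K) = K`.
-/

namespace Pool.Agent.H61.UN

open Finset Filter

theorem card_RJ (ι : Type) [Fintype ι] [DecidableEq ι] (x a : ℝ) (L N : ℕ) :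
    (RJ ι x a L N).card = (RS x a L N).card.descFactorial (Fintype.card ι) := by
  have e : {h // h ∈ RJ ι x a L N} ≃ (ι ↪ {y // y ∈ RS x a L N}) :=
    { toFun := fun h => ⟨fun i => ⟨h.1 i, mem_RS.2 ⟨(mem_RJ.1 h.2).1.1 i, (mem_RJ.1 h.2).2 i⟩⟩,
        fun i j hij => (mem_RJ.1 h.2).1.2 (congrArg Subtype.val hij)⟩
      invFun := fun f => ⟨fun i => (f i).1, mem_RJ.2 ⟨⟨fun i => (mem_RS.1 (f i).2).1,
        fun i j hij => f.injective (Subtype.ext hij)⟩, fun i => (mem_RS.1 (f i).2).2⟩⟩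
      left_inv := fun h => rfl
      right_inv := fun f => rfl }
  have h1 := Fintype.card_congr e
  rw [Fintype.card_embedding_eq, Fintype.card_coe, Fintype.card_coe] at h1
  exact h1

theorem pow_le_fac {K m Z : ℕ} (hKm : K ≤ m) (hZ : K ≤ Z) :
    Z ^ m ≤ m ^ m * (Z.descFactorial K + Z.descFactorial m) := by
  rcases Nat.eq_zero_or_pos m with hm | hm
  · subst hm
    simp
  rcases le_or_gt Z m with hz | hz
  · have h1 : 1 ≤ Z.descFactorial K := Nat.one_le_iff_ne_zero.2 (by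
      rw [Ne, Nat.descFactorial_eq_zero_iff_lt]
      omega)
    calc Z ^ m ≤ m ^ m := Nat.pow_le_pow_left hz m
      _ = m ^ m * 1 := (mul_one _).symm
      _ ≤ m ^ m * (Z.descFactorial K + Z.descFactorial m) := Nat.mul_le_mul_left _ (by omega)
  · have h1 : (Z + 1 - m) ^ m ≤ Z.descFactorial m := Nat.pow_sub_le_descFactorial Z m
    have h2 : Z ≤ m * (Z + 1 - m) := by
      obtain ⟨j, rfl⟩ : ∃ j, Z = m + j := ⟨Z - m, by omega⟩
      have e : m + j + 1 - m = j + 1 := by omega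
      rw [e]
      nlinarith
    calc Z ^ m ≤ (m * (Z + 1 - m)) ^ m := Nat.pow_le_pow_left h2 m
      _ = m ^ m * (Z + 1 - m) ^ m := mul_pow _ _ _
      _ ≤ m ^ m * (Z.descFactorial K + Z.descFactorial m) := Nat.mul_le_mul_left _ (by omega)

theorem mom_pow (K m : ℕ) (hK : 1 ≤ K) (hKm : K ≤ m) (a : ℝ) (ha : 0 < a) :
    ∃ C : ℝ, 0 < C ∧ ∀ᶠ x : ℝ in atTop, ∀ L : ℕ, 1 ≤ L → ∀ Y : ℕ, Real.sqrt x ≤ (Y : ℝ) →
      ∑ N ∈ (Ioc 0 Y).filter (fun N => K ≤ (RS x a L N).card), ((RS x a L N).card : ℝ) ^ m ≤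
        C * Y * (((L : ℝ) / Real.log x) ^ K + ((L : ℝ) / Real.log x) ^ m) := by
  have : Nonempty (Fin K) := ⟨⟨0, by omega⟩⟩
  have : Nonempty (Fin m) := ⟨⟨0, by omega⟩⟩
  obtain ⟨C1, hC1, h1⟩ := mom_fac (Fin K) a ha
  obtain ⟨C2, hC2, h2⟩ := mom_fac (Fin m) a ha
  have hm0 : 0 < (m : ℝ) := by exact_mod_cast (by omega : 0 < m)
  refine ⟨(m : ℝ) ^ m * (C1 + C2), by positivity, ?_⟩
  filter_upwards [h1, h2, eventually_ge_atTop 1] with x hx1 hx2 hx L hL Y hY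
  have a1 := hx1 L hL Y hY
  have a2 := hx2 L hL Y hY
  rw [Fintype.card_fin] at a1 a2
  have hlog : 0 ≤ Real.log x := Real.log_nonneg hx
  have hLx : 0 ≤ (L : ℝ) / Real.log x := by positivity
  have hY0 : 0 ≤ (Y : ℝ) := by positivity
  have key : ∀ N ∈ (Ioc 0 Y).filter (fun N => K ≤ (RS x a L N).card), ((RS x a L N).card : ℝ) ^ m ≤
      (m : ℝ) ^ m * (((RJ (Fin K) x a L N).card : ℝ) + ((RJ (Fin m) x a L N).card : ℝ)) := by
    intro N hN
    have h3 := pow_le_fac hKm (mem_filter.1 hN).2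
    rw [card_RJ, card_RJ, Fintype.card_fin, Fintype.card_fin]
    exact_mod_cast h3
  calc ∑ N ∈ (Ioc 0 Y).filter (fun N => K ≤ (RS x a L N).card), ((RS x a L N).card : ℝ) ^ m
      ≤ ∑ N ∈ (Ioc 0 Y).filter (fun N => K ≤ (RS x a L N).card),
        (m : ℝ) ^ m * (((RJ (Fin K) x a L N).card : ℝ) + ((RJ (Fin m) x a L N).card : ℝ)) := sum_le_sum key
    _ ≤ ∑ N ∈ Ioc 0 Y, (m : ℝ) ^ m * (((RJ (Fin K) x a L N).card : ℝ) + ((RJ (Fin m) x a L N).card : ℝ)) :=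
        sum_le_sum_of_subset_of_nonneg (filter_subset _ _) (fun N _ _ => by positivity)
    _ = (m : ℝ) ^ m * (∑ N ∈ Ioc 0 Y, ((RJ (Fin K) x a L N).card : ℝ) +
        ∑ N ∈ Ioc 0 Y, ((RJ (Fin m) x a L N).card : ℝ)) := by
        rw [← mul_sum, sum_add_distrib]
    _ ≤ (m : ℝ) ^ m * (C1 * Y * ((L : ℝ) / Real.log x) ^ K + C2 * Y * ((L : ℝ) / Real.log x) ^ m) :=
        mul_le_mul_of_nonneg_left (add_le_add a1 a2) (by positivity)
    _ ≤ (m : ℝ) ^ m * ((C1 + C2) * Y * ((L : ℝ) / Real.log x) ^ K +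
        (C1 + C2) * Y * ((L : ℝ) / Real.log x) ^ m) := by
        refine mul_le_mul_of_nonneg_left (add_le_add ?_ ?_) (by positivity)
        · refine mul_le_mul_of_nonneg_right (mul_le_mul_of_nonneg_right (by linarith) hY0) (by positivity)
        · refine mul_le_mul_of_nonneg_right (mul_le_mul_of_nonneg_right (by linarith) hY0) (by positivity)
    _ = (m : ℝ) ^ m * (C1 + C2) * Y * (((L : ℝ) / Real.log x) ^ K + ((L : ℝ) / Real.log x) ^ m) := by ring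

end Pool.Agent.H61.UN
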